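import Mathlib
import Pool.Agent.helper12.TZ.DefsV

/-!
# Blocks with abelian defect group and free inertial action: definitions for the statement

`Irr`, `IrrOn`, `omega`, `Induces`, `funMap` are those of `helper58/DC/Defs.lean`, `DefectGroup` is that of
`helper12/TZ/DefsV.lean`. `B` is the block of the irreducible character `χ` of `G`.
-/

set_option autoImplicit false

namespace Pool.Agent.FIW

open Pool.Agent.helper58.DC

variable {G : Type} [Group G]

/-- The value of the central character of `ψ` at the sum of the conjugacy class of `h` in the subgroup `H`. -/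
noncomputable def omegaIn (H : Subgroup G) (ψ : G → ℂ) (h : G) : ℂ :=
  (∑ᶠ x ∈ {x : G | ∃ k ∈ H, k * h * k⁻¹ = x}, ψ x) / ψ 1

/-- The irreducible characters `ψ`, `ψ'` of the subgroup `H` lie in the same block of `H`: their central characters agree
modulo `M`. -/
def SameBlock (M : Ideal (integralClosure ℤ ℂ)) (H : Subgroup G) (ψ ψ' : G → ℂ) : Prop :=
  ∀ h ∈ H, ∃ a ∈ M, omegaIn H ψ h - omegaIn H ψ' h = ((a : integralClosure ℤ ℂ) : ℂ)

/-- The inertial group `N_G(D, b)` of the block `b` of the character `θ` of `C_G(D)`. -/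
def inertial (M : Ideal (integralClosure ℤ ℂ)) (D : Subgroup G) (θ : G → ℂ) : Set G :=
  {g | g ∈ Subgroup.normalizer (D : Set G) ∧
    SameBlock M (Subgroup.centralizer (D : Set G)) (funMap (MulAut.conj g) θ) θ}

/-- `D` is a defect group of `B`, `D` is abelian, `b` is the block of the character `θ` of `C_G(D)`, `b^G = B`, and the
inertial quotient `I = N_G(D, b) / C_G(D)` is abelian, acts freely on `D \ {1}` (only the elements of `C_G(D)` in
`N_G(D, b)` commute with some `u ≠ 1` of `D`), and its order is smaller than the exponent of `D`. -/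
structure FreeInertial (p : ℕ) (M : Ideal (integralClosure ℤ ℂ)) (χ : G → ℂ) (D : Subgroup G)
    (θ : G → ℂ) : Prop where
  defect : Pool.Agent.MAP.DefectGroup p M χ D
  comm : ∀ c ∈ D, ∀ d ∈ D, c * d = d * c
  char : θ ∈ IrrOn (Subgroup.centralizer (D : Set G))
  ind : Induces M θ χ
  abel : ∀ s ∈ inertial M D θ, ∀ t ∈ inertial M D θ,
    s * t * s⁻¹ * t⁻¹ ∈ Subgroup.centralizer (D : Set G)
  free : ∀ t ∈ inertial M D θ, ∀ u ∈ D, u ≠ 1 → t * u = u * t → t ∈ Subgroup.centralizer (D : Set G)
  small : ∃ z ∈ D, (inertial M D θ).ncard < orderOf z * Nat.card (Subgroup.centralizer (D : Set G))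

end Pool.Agent.FIW
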