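import Mathlib
import Pool.Agent.helper22.OB.SpecD
import Pool.Agent.helper12.FI.DefsF

/-!
# Project fi (MP_baa4d7_al): blocks with abelian defect group and free inertial action. Working definitions

Notation of the earlier projects: `cz P`, `nz P` centraliser and normaliser, `cc ψ z` central character, `cv` product of
the group algebra, `Mcong`, `CycQ` (DI, `helper81/DI/Defs`); `IntAt`, `InM`, `Small`, `Setup` (`helper83/GR/Ari`); `PEl`,
`PReg`, `Cz H y = H ⊓ centralizer {y}`, `CF H z`, `Sf`, `eS`, `BC`, `dl`, `Blk` (`helper83/GR/Spec`); `DefAt`, `cvp`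
(`helper22/OB/SpecD`); `pp p N = |N|_p` (DR).
-/

set_option autoImplicit false

namespace Pool.Agent.FI

open Pool.Agent.helper58.DC Pool.Agent.DI Pool.Agent.GR Pool.Agent.OB

section

variable {G : Type} [Group G]

open Classical in
/-- The indicator function of the conjugacy class of `y` in the subgroup `L`. -/
noncomputable def cls (L : Subgroup G) (y : G) : G → ℂ :=
  fun x => if ∃ l ∈ L, l * y * l⁻¹ = x then 1 else 0

/-- The central characters of `η` and `ψ` agree modulo `M` on the `L`-class functions with integral values. For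
`η ∈ IrrOn H`, `H ≤ L`, `ψ ∈ IrrOn L` this means `b(η)^L = b(ψ)`; for `H = L` it means that `η`, `ψ` lie in the same
block of `L`. -/
def SB (M : Ideal (integralClosure ℤ ℂ)) (L : Subgroup G) (η ψ : G → ℂ) : Prop :=
  ∀ z : G → ℂ, CF L z → (∀ x, IsIntegral ℤ (z x)) → Mcong M (cc η z) (cc ψ z)

/-- The block of `L` with the central character of `θ` (`θ` a character of a subgroup of `L`). -/
def Bl (M : Ideal (integralClosure ℤ ℂ)) (L : Subgroup G) (θ : G → ℂ) : Set (G → ℂ) :=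
  {ψ | ψ ∈ IrrOn L ∧ SB M L ψ θ}

theorem SB.refl {M : Ideal (integralClosure ℤ ℂ)} (L : Subgroup G) (η : G → ℂ) : SB M L η η :=
  fun z _ _ => ⟨0, M.zero_mem, by simp⟩

theorem SB.symm {M : Ideal (integralClosure ℤ ℂ)} {L : Subgroup G} {η ψ : G → ℂ} (h : SB M L η ψ) :
    SB M L ψ η := by
  intro z hz hi
  obtain ⟨c, hc, e⟩ := h z hz hi
  refine ⟨-c, M.neg_mem hc, ?_⟩
  push_cast
  rw [← e]
  ring

theorem SB.trans {M : Ideal (integralClosure ℤ ℂ)} {L : Subgroup G} {η ψ φ : G → ℂ} (h : SB M L η ψ)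
    (h' : SB M L ψ φ) : SB M L η φ := by
  intro z hz hi
  obtain ⟨c, hc, e⟩ := h z hz hi
  obtain ⟨c', hc', e'⟩ := h' z hz hi
  refine ⟨c + c', M.add_mem hc hc', ?_⟩
  push_cast
  rw [← e, ← e']
  ring

theorem cc_funMap (g : G) (ψ z : G → ℂ) :
    cc (funMap (MulAut.conj g) ψ) z = cc ψ (fun x => z (g * x * g⁻¹)) := by
  unfold cc
  have h1 : funMap (MulAut.conj g) ψ 1 = ψ 1 := by simp [funMap]
  rw [h1]
  congr 1
  rw [← finsum_comp_equiv (MulAut.conj g).toEquiv]
  refine finsum_congr fun x => ?_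
  have h2 : (MulAut.conj g).toEquiv x = g * x * g⁻¹ := rfl
  rw [h2]
  have h3 : funMap (MulAut.conj g) ψ (g * x * g⁻¹) = ψ x := by
    unfold funMap
    congr 1
    rw [MulAut.conj_inv_apply]
    group
  rw [h3]

theorem cz_conj {D : Subgroup G} {g : G} (hg : g ∈ nz D) {x : G} (hx : x ∈ cz D) : g * x * g⁻¹ ∈ cz D := by
  rw [Subgroup.mem_centralizer_iff] at hx ⊢
  intro d hd
  have h1 : g⁻¹ * d * g ∈ D := by
    have h2 := (Subgroup.mem_normalizer_iff.1 ((nz D).inv_mem hg) d).1 hd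
    simpa using h2
  have h3 := hx _ h1
  calc d * (g * x * g⁻¹) = g * ((g⁻¹ * d * g) * x) * g⁻¹ := by group
    _ = g * (x * (g⁻¹ * d * g)) * g⁻¹ := by rw [h3]
    _ = g * x * g⁻¹ * d := by group

theorem CF_conj {D : Subgroup G} {g : G} (hg : g ∈ nz D) {z : G → ℂ} (hz : CF (cz D) z) :
    CF (cz D) (fun x => z (g * x * g⁻¹)) := by
  refine ⟨fun h hh x => ?_, fun x hx => ?_⟩
  · have h1 : g * (h * x * h⁻¹) * g⁻¹ = (g * h * g⁻¹) * (g * x * g⁻¹) * (g * h * g⁻¹)⁻¹ := by group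
    change z (g * (h * x * h⁻¹) * g⁻¹) = z (g * x * g⁻¹)
    rw [h1]
    exact hz.1 _ (cz_conj hg hh) _
  · change z (g * x * g⁻¹) = 0
    refine hz.2 _ fun h => hx ?_
    have h1 := cz_conj ((nz D).inv_mem hg) h
    have h2 : g⁻¹ * (g * x * g⁻¹) * g⁻¹⁻¹ = x := by group
    rwa [h2] at h1

/-- `N_G(D, b)`: the stabiliser in `N_G(D)` of the block of `θ` (a character of `C_G(D)`). -/
def TT (M : Ideal (integralClosure ℤ ℂ)) (D : Subgroup G) (θ : G → ℂ) : Subgroup G where
  carrier := {g | g ∈ nz D ∧ SB M (cz D) (funMap (MulAut.conj g) θ) θ}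
  one_mem' := by
    refine ⟨(nz D).one_mem, ?_⟩
    have h : funMap (MulAut.conj (1 : G)) θ = θ := by
      funext x
      simp [funMap]
    rw [h]
    exact SB.refl _ _
  mul_mem' := by
    rintro a b ⟨ha, ha'⟩ ⟨hb, hb'⟩
    refine ⟨(nz D).mul_mem ha hb, fun z hz hi => ?_⟩
    obtain ⟨c, hc, e⟩ := ha' z hz hi
    obtain ⟨c', hc', e'⟩ := hb' _ (CF_conj ha hz) fun x => hi _
    refine ⟨c' + c, M.add_mem hc' hc, ?_⟩
    rw [cc_funMap] at e e' ⊢
    push_cast
    rw [← e, ← e']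
    have h : (fun x => z (a * b * x * (a * b)⁻¹)) =
        fun x => (fun x => z (a * x * a⁻¹)) (b * x * b⁻¹) := by
      funext x
      change z _ = z _
      congr 1
      group
    rw [h]
    ring
  inv_mem' := by
    rintro a ⟨ha, ha'⟩
    refine ⟨(nz D).inv_mem ha, fun z hz hi => ?_⟩
    have hz' := CF_conj ((nz D).inv_mem ha) hz
    obtain ⟨c, hc, e⟩ := ha' _ hz' fun x => hi _
    refine ⟨-c, M.neg_mem hc, ?_⟩
    rw [cc_funMap] at e ⊢
    push_cast
    rw [← e]
    have h : (fun x => (fun x => z (a⁻¹ * x * a⁻¹⁻¹)) (a * x * a⁻¹)) = z := by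
      funext x
      change z _ = z _
      congr 1
      group
    rw [h]
    ring

/-- `D` is a defect group of the block of `ψ` in `L` (min-max form). -/
structure DefL (p : ℕ) (M : Ideal (integralClosure ℤ ℂ)) (L : Subgroup G) (ψ : G → ℂ) (D : Subgroup G)
    (x : G) : Prop where
  reg : PReg p x
  mem : x ∈ L
  le : D ≤ Cz L x
  pg : IsPGroup p D
  card : Nat.card D = pp p (Cz L x)
  ne : ¬ InM M (cc ψ (cls L x))
  min : ∀ y ∈ L, ¬ InM M (cc ψ (cls L y)) → Nat.card D ≤ pp p (Cz L y)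

/-- The standing situation: `D` is an abelian defect group of the block `B` of `χ` and `θ` a character of `C_G(D)` with
`b(θ)^G = B`. -/
structure Rt (p : ℕ) (M : Ideal (integralClosure ℤ ℂ)) (D : Subgroup G) (x : G) (θ χ : G → ℂ) :
    Prop where
  chi : χ ∈ Irr G
  dfa : DefAt p M χ D x
  com : ∀ c ∈ D, ∀ d ∈ D, c * d = d * c
  th : θ ∈ IrrOn (cz D)
  ind : Induces M θ χ

/-- The inertial quotient acts freely on `D \ {1}`. -/
def Free (M : Ideal (integralClosure ℤ ℂ)) (D : Subgroup G) (θ : G → ℂ) : Prop :=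
  ∀ t ∈ TT M D θ, ∀ u ∈ D, u ≠ 1 → t * u = u * t → t ∈ cz D

/-- The block `b(θ)^L` of `L` has `|D|` characters, and they agree on the `p`-regular elements. -/
structure Good (p : ℕ) (M : Ideal (integralClosure ℤ ℂ)) (D L : Subgroup G) (θ : G → ℂ) : Prop where
  card : (Bl M L θ).ncard = Nat.card D
  reg : ∀ ψ ∈ Bl M L θ, ∀ ψ' ∈ Bl M L θ, ∀ v ∈ L, PReg p v → ψ v = ψ' v

/-- `χ (g i)`, the value of `χ` at the element `g * ∑ i(x) x` of the group algebra. -/
noncomputable def ev (χ i : G → ℂ) (g : G) : ℂ := ∑ᶠ x, i x * χ (g * x)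

/-- `i` is an idempotent of the group algebra of `H` over the local ring. -/
structure Idm (M : Ideal (integralClosure ℤ ℂ)) (H : Subgroup G) (i : G → ℂ) : Prop where
  sup : ∀ x, x ∉ H → i x = 0
  int : ∀ x, IntAt M (i x)
  idem : cv i i = i

/-- `i` is invariant under conjugation by the elements of `S`. -/
def Inv (S : Subgroup G) (i : G → ℂ) : Prop := ∀ s ∈ S, ∀ x, i (s * x * s⁻¹) = i x

/-- The multiplicity of `ψ` in the restriction of `χ` to `H`. -/
noncomputable def mt (H : Subgroup G) (χ ψ : G → ℂ) : ℂ :=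
  (∑ᶠ x ∈ (H : Set G), χ x * ψ x⁻¹) / Nat.card H

/-- The generalised decomposition number `d^u_χ` for the block `b(θ)^L` of `L = C(u)`, if this block is `Good`. -/
noncomputable def dd (M : Ideal (integralClosure ℤ ℂ)) (L : Subgroup G) (θ χ : G → ℂ) (u : G) : ℂ :=
  ∑ᶠ ψ ∈ Bl M L θ, mt L χ ψ * (ψ u / ψ 1)

end

end Pool.Agent.FI
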