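import Mathlib
import Pool.Agent.helper12.FI.Defs

/-!
# Project fi (MP_baa4d7_al): definitions of block Q

Setting of block Q: `Setup p M`, `Rt p M D x θ χ`, `Free M D θ`, `P ≤ D`, `L = cz P` (`L = ⊤` for `P = ⊥`), `C = cz D ≤ L`.
-/

set_option autoImplicit false

namespace Pool.Agent.FI

open Pool.Agent.helper58.DC Pool.Agent.DI Pool.Agent.GR Pool.Agent.OB

variable {G : Type} [Group G]

/-- The setting of block Q. -/
structure QS (p : ℕ) (M : Ideal (integralClosure ℤ ℂ)) (D P : Subgroup G) (x : G) (θ χ : G → ℂ) :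
    Prop where
  rt : Rt p M D x θ χ
  free : Free M D θ
  le : P ≤ D

/-- `u` commutes with all elements of `L`. -/
def Cen (L : Subgroup G) (u : G) : Prop := ∀ l ∈ L, l * u = u * l

/-- The subgroup `Z` of the elements of `D` which commute with all elements of `L`. -/
def Zc (D L : Subgroup G) : Subgroup G := D ⊓ Subgroup.centralizer (L : Set G)

/-- The blocks `b(θ)^(C_L(u))`, `u ∈ D` not central in `L`, are good. -/
def GU (p : ℕ) (M : Ideal (integralClosure ℤ ℂ)) (D L : Subgroup G) (θ : G → ℂ) : Prop :=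
  ∀ u ∈ D, ¬ Cen L u → Good p M D (Cz L u) θ

/-- The order of the group `I_L = (TT M D θ ⊓ L) / cz D`. -/
noncomputable def iL (M : Ideal (integralClosure ℤ ℂ)) (D L : Subgroup G) (θ : G → ℂ) : ℕ :=
  (cz D).relIndex (TT M D θ ⊓ L)

/-- `|H|⁻¹ ∑ ψ(v) ψ'(v⁻¹)`, the sum over the `p`-regular `v` in `H`. -/
noncomputable def EE (p : ℕ) (H : Subgroup G) (ψ ψ' : G → ℂ) : ℂ :=
  (∑ᶠ v ∈ {v : G | v ∈ H ∧ PReg p v}, ψ v * ψ' v⁻¹) / Nat.card H

theorem Zc_mem {D L : Subgroup G} {u : G} : u ∈ Zc D L ↔ u ∈ D ∧ Cen L u := by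
  unfold Zc Cen
  rw [Subgroup.mem_inf, Subgroup.mem_centralizer_iff]
  rfl

end Pool.Agent.FI
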