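import Mathlib
import Pool.Agent.helper12.FI.DefsQ
import Pool.Agent.helper58.FI.SpecC
import Pool.Agent.helper40.FI.SpecLA

/-!
# Project fi (MP_baa4d7_al): assembly of block Q

Standing hypotheses: `Lo0 p M D x θ χ` (`helper58/FI/DefsC`).
-/

set_option autoImplicit false

namespace Pool.Agent.FI

open Pool.Agent.helper58.DC Pool.Agent.DI Pool.Agent.GR Pool.Agent.OB Pool.Agent.DR

/-- **LO0**. From the blocks A: CON CNJ DFL BET EQR, and FCY. -/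
def LO0_stmt : Prop :=
  ∀ (p : ℕ) (M : Ideal (integralClosure ℤ ℂ)), Setup p M → ∀ (G : Type) [Group G] [Finite G]
    (D : Subgroup G) (x : G) (θ χ : G → ℂ), Rt p M D x θ χ → Free M D θ → D ≠ ⊥ →
    (∀ s ∈ TT M D θ, ∀ t ∈ TT M D θ, s * t * s⁻¹ * t⁻¹ ∈ cz D) → Lo0 p M D x θ χ

/-- **QLA**. The data of block LA for the block `b(θ)^L` of `L = cz P` (`P = ⊥` allowed), `β ψ u = ev ψ i u / θ 1`. From QID, QEV,
QNU, QHT (block Q2), DOR, DDT (block F), QDG (block Q1), QCC, QI0, QNZ. -/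
def QLA_stmt : Prop :=
  ∀ (p : ℕ) (M : Ideal (integralClosure ℤ ℂ)), Setup p M → p ≠ 2 → ∀ (G : Type) [Group G] [Finite G]
    (D : Subgroup G) (x : G) (θ χ : G → ℂ), Lo0 p M D x θ χ → ∀ P ≤ D,
    (∃ u ∈ D, ¬ Cen (cz P) u) → GU p M D (cz P) θ →
    ∃ (I : Subgroup (MulAut D)) (β : Bl M (cz P) θ → D → ℂ) (n : D → ℤ),
      Nat.card I = iL M D (cz P) θ ∧
      LAD p M ((Zc D (cz P)).subgroupOf D) I β (fun ψ u => dd M (Cz (cz P) u) θ ψ u) n ∧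
      ∀ ψ : Bl M (cz P) θ, ∃ N k : ℕ, β ψ 1 = N ∧ N ≠ 0 ∧ (ψ : G → ℂ) 1 = k ∧
        padicValNat p N + padicValNat p (Nat.card (cz P)) =
          padicValNat p k + padicValNat p (Nat.card D)

/-- **QMF**. The norm formula (QMX of block Q1), in the form which is used here. -/
def QMF_stmt : Prop :=
  ∀ (p : ℕ) (M : Ideal (integralClosure ℤ ℂ)), Setup p M → ∀ (G : Type) [Group G] [Finite G]
    (D : Subgroup G) (x : G) (θ χ : G → ℂ), Lo0 p M D x θ χ → ∀ P ≤ D, GU p M D (cz P) θ →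
    ∀ ψ ∈ Bl M (cz P) θ, (1 : ℂ) = Nat.card (Zc D (cz P)) * EE p (cz P) ψ ψ +
      ((∑ᶠ u ∈ {u : D | u ∉ (Zc D (cz P)).subgroupOf D}, ‖dd M (Cz (cz P) u) θ ψ u‖ ^ 2 : ℝ) : ℂ) /
        (Nat.card D * iL M D (cz P) θ)

/-- **QEM**. The matrix `EE` (QEI of block Q1), in the form which is used here. -/
def QEM_stmt : Prop :=
  ∀ (p : ℕ) (M : Ideal (integralClosure ℤ ℂ)), Setup p M → ∀ (G : Type) [Group G] [Finite G]
    (H : Subgroup G) (S : Set (G → ℂ)), BC M H S →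
    (∀ ψ ∈ S, ∀ φ ∈ S, ∑ᶠ ψ' ∈ S, EE p H ψ ψ' * EE p H ψ' φ = EE p H ψ φ) ∧
    (∀ ψ ∈ IrrOn H, ∀ φ ∈ IrrOn H, EE p H φ ψ = (starRingEnd ℂ) (EE p H ψ φ)) ∧
    (S.Nonempty → ∃ l : ℕ, 1 ≤ l ∧ ∑ᶠ ψ ∈ S, EE p H ψ ψ = l)

/-- **QGL**. The local step. -/
def QGL_stmt : Prop :=
  ∀ (p : ℕ) (M : Ideal (integralClosure ℤ ℂ)), Setup p M → p ≠ 2 → ∀ (G : Type) [Group G] [Finite G]
    (D : Subgroup G) (x : G) (θ χ : G → ℂ), Lo0 p M D x θ χ → ∀ P ≤ D, P ≠ ⊥ →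
    (∃ u ∈ D, ¬ Cen (cz P) u) → GU p M D (cz P) θ → Good p M D (cz P) θ

/-- **QGO**. All local blocks are good. -/
def QGO_stmt : Prop :=
  ∀ (p : ℕ) (M : Ideal (integralClosure ℤ ℂ)), Setup p M → p ≠ 2 → ∀ (G : Type) [Group G] [Finite G]
    (D : Subgroup G) (x : G) (θ χ : G → ℂ), Lo0 p M D x θ χ → ∀ P ≤ D, P ≠ ⊥ → Good p M D (cz P) θ

/-- **QGG**. The global step. -/
def QGG_stmt : Prop :=
  ∀ (p : ℕ) (M : Ideal (integralClosure ℤ ℂ)), Setup p M → p ≠ 2 → ∀ (G : Type) [Group G] [Finite G]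
    (D : Subgroup G) (x : G) (θ χ : G → ℂ), Loc p M D x θ χ → IsOp p (⊤ : Subgroup G) ⊥ →
    ∀ a : ℕ, Nat.card D = p ^ a → ∃ l : ℕ, 1 ≤ l ∧ l ≤ (cz D).relIndex (TT M D θ) ∧
      (cz D).relIndex (TT M D θ) * (Blk M χ ⊤).ncard =
        (cz D).relIndex (TT M D θ) * l + (Nat.card D - 1) ∧
      (l = (cz D).relIndex (TT M D θ) → ∀ ψ ∈ Blk M χ ⊤, Defect p ⊤ ψ a)

end Pool.Agent.FI
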