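import Mathlib

/-!
# Project fi (MP_baa4d7_al): pure lemmas of the assembly of block Q
-/

set_option autoImplicit false

namespace Pool.Agent.FI

open scoped ComplexConjugate

theorem PQ_eq_of_sum {X : Type} [Fintype X] (f : X → ℝ) (c : ℝ) (h : ∀ x, f x ≤ c)
    (hs : ∑ x, f x = Fintype.card X * c) : ∀ x, f x = c := by
  intro x
  have h1 : ∑ y, (c - f y) = 0 := by
    rw [Finset.sum_sub_distrib, hs]
    simp
  have h2 := (Finset.sum_eq_zero_iff_of_nonneg (fun y _ => sub_nonneg.2 (h y))).1 h1 x (Finset.mem_univ x)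
  linarith

/-- A hermitian idempotent matrix of trace one with small diagonal entries. -/
theorem PQ_E {X : Type} [Fintype X] (E : X → X → ℂ) (hid : ∀ x z, ∑ y, E x y * E y z = E x z)
    (hher : ∀ x y, E y x = conj (E x y)) (htr : ∑ x, E x x = 1)
    (hle : ∀ x, (E x x).re ≤ 1 / Fintype.card X) :
    (∀ x, E x x = 1 / Fintype.card X) ∧ ∀ x y, ‖E x y‖ = 1 / Fintype.card X := by
  classical
  have hX : Nonempty X := by
    by_contra h
    rw [not_nonempty_iff] at h
    simp at htr
  have hn : (0 : ℝ) < Fintype.card X := by exact_mod_cast Fintype.card_pos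
  have hre : ∑ x, (E x x).re = Fintype.card X * (1 / Fintype.card X : ℝ) := by
    have h1 : ∑ x, (E x x).re = 1 := by
      rw [← Complex.re_sum, htr]
      simp
    rw [h1]
    field_simp
  have hd : ∀ x, (E x x).re = 1 / Fintype.card X := PQ_eq_of_sum _ _ hle hre
  have him : ∀ x, (E x x).im = 0 := by
    intro x
    have h1 := congrArg Complex.im (hher x x)
    simp at h1
    linarith
  have hdd : ∀ x, E x x = 1 / Fintype.card X := by
    intro x
    apply Complex.ext
    · rw [hd x]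
      simp
    · rw [him x]
      simp
  have hsq : ∀ x, ∑ y, ‖E x y‖ ^ 2 = 1 / Fintype.card X := by
    intro x
    have h1 := hid x x
    have h2 : ∀ y, E x y * E y x = ((‖E x y‖ ^ 2 : ℝ) : ℂ) := by
      intro y
      rw [hher x y, Complex.mul_conj, Complex.normSq_eq_norm_sq]
    rw [Finset.sum_congr rfl (fun y _ => h2 y), ← Complex.ofReal_sum, hdd x] at h1
    have h3 : ((∑ y, ‖E x y‖ ^ 2 : ℝ) : ℂ) = ((1 / Fintype.card X : ℝ) : ℂ) := by
      rw [h1]
      push_cast
      rfl
    exact_mod_cast h3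
  have hsq' : ∀ y, ∑ z, ‖E z y‖ ^ 2 = 1 / Fintype.card X := by
    intro y
    rw [← hsq y]
    refine Finset.sum_congr rfl fun z _ => ?_
    rw [hher y z, RCLike.norm_conj]
  have hcs : ∀ x y, ‖E x y‖ ^ 2 ≤ (1 / Fintype.card X : ℝ) * (1 / Fintype.card X) := by
    intro x y
    have h1 : ‖E x y‖ ≤ ∑ z, ‖E x z‖ * ‖E z y‖ := by
      rw [← hid x y]
      refine (norm_sum_le _ _).trans (le_of_eq ?_)
      exact Finset.sum_congr rfl fun z _ => norm_mul _ _
    have h2 := Finset.sum_mul_sq_le_sq_mul_sq Finset.univ (fun z => ‖E x z‖) (fun z => ‖E z y‖)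
    rw [hsq, hsq'] at h2
    refine le_trans ?_ h2
    exact pow_le_pow_left₀ (norm_nonneg _) h1 2
  refine ⟨hdd, fun x y => ?_⟩
  have h1 : ∀ y, ‖E x y‖ ^ 2 = (1 / Fintype.card X : ℝ) * (1 / Fintype.card X) := by
    refine PQ_eq_of_sum _ _ (hcs x) ?_
    rw [hsq x]
    field_simp
  have h2 : ‖E x y‖ ^ 2 = (1 / Fintype.card X : ℝ) ^ 2 := by
    rw [h1 y]
    ring
  have h3 : (0 : ℝ) ≤ 1 / Fintype.card X := by positivity
  exact (pow_left_inj₀ (norm_nonneg _) h3 (by norm_num)).1 h2

/-- Equality in the inequality of Cauchy and Schwarz. -/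
theorem PQ_CS {V : Type} [Fintype V] (f g : V → ℂ) (c : ℝ) (hc : 0 < c)
    (hf : ∑ v, f v * conj (f v) = c) (hg : ∑ v, g v * conj (g v) = c)
    (hfg : ‖∑ v, f v * conj (g v)‖ = c) (v₀ : V) (a b : ℝ) (ha : 0 < a) (hb : 0 < b) (h1 : f v₀ = a)
    (h2 : g v₀ = b) : f = g := by
  set w : ℂ := ∑ v, f v * conj (g v) with hw
  have hw' : ∑ v, g v * conj (f v) = conj w := by
    rw [hw, map_sum]
    refine Finset.sum_congr rfl fun v _ => ?_
    rw [map_mul, Complex.conj_conj]
    ring
  have hww : w * conj w = ((c ^ 2 : ℝ) : ℂ) := by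
    rw [Complex.mul_conj, Complex.normSq_eq_norm_sq, hfg]
  have hcc : (c : ℂ) ≠ 0 := by exact_mod_cast hc.ne'
  have key : ∑ v, (c * f v - w * g v) * conj (c * f v - w * g v) = 0 := by
    have h3 : ∀ v, (c * f v - w * g v) * conj (c * f v - w * g v) =
        c ^ 2 * (f v * conj (f v)) - c * conj w * (f v * conj (g v)) - c * w * (g v * conj (f v)) +
          w * conj w * (g v * conj (g v)) := by
      intro v
      simp only [map_sub, map_mul, Complex.conj_ofReal]
      ring
    rw [Finset.sum_congr rfl (fun v _ => h3 v), Finset.sum_add_distrib, Finset.sum_sub_distrib,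
      Finset.sum_sub_distrib, ← Finset.mul_sum, ← Finset.mul_sum, ← Finset.mul_sum, ← Finset.mul_sum,
      hf, hg, hw', ← hw]
    have h4 : (c : ℂ) ^ 2 * c - c * conj w * w - c * w * conj w + w * conj w * c =
        (c : ℂ) ^ 2 * c - c * (w * conj w) := by ring
    rw [h4, hww]
    push_cast
    ring
  have hz : ∀ v, c * f v - w * g v = 0 := by
    intro v
    have h3 : ∀ v, (c * f v - w * g v) * conj (c * f v - w * g v) =
        ((‖c * f v - w * g v‖ ^ 2 : ℝ) : ℂ) := by
      intro v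
      rw [Complex.mul_conj, Complex.normSq_eq_norm_sq]
    rw [Finset.sum_congr rfl (fun v _ => h3 v), ← Complex.ofReal_sum] at key
    have h4 : ∑ v, ‖c * f v - w * g v‖ ^ 2 = 0 := by exact_mod_cast key
    have h5 := (Finset.sum_eq_zero_iff_of_nonneg (fun v _ => by positivity)).1 h4 v (Finset.mem_univ v)
    simpa using h5
  have hv : (c : ℂ) * a = w * b := by
    have h3 := hz v₀
    rw [h1, h2] at h3
    exact sub_eq_zero.1 h3
  have hbb : (b : ℂ) ≠ 0 := by exact_mod_cast hb.ne'
  have hwr : w = ((c * a / b : ℝ) : ℂ) := by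
    push_cast
    rw [hv]
    field_simp
  have hpos : 0 < c * a / b := by positivity
  have hwc : w = c := by
    have h3 : ‖w‖ = c := hfg
    rw [hwr, Complex.norm_real, Real.norm_of_nonneg hpos.le] at h3
    rw [hwr, h3]
  funext v
  have h3 := hz v
  rw [hwc, ← mul_sub] at h3
  have h4 := (mul_eq_zero.1 h3).resolve_left hcc
  exact sub_eq_zero.1 h4

end Pool.Agent.FI
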