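import Mathlib
import Pool.Agent.helper40.FI.SpecLA
import Pool.Agent.helper12.FI.PureQ

/-!
# Project fi (MP_baa4d7_al): consequences of block LA
-/

set_option autoImplicit false

namespace Pool.Agent.FI

open Pool.Agent.GR

/-- In the local case the number of characters is at most `|D|`. -/
theorem QK1 {p : ℕ} {M : Ideal (integralClosure ℤ ℂ)} {D X : Type} [Group D] [Finite D] [Finite X]
    {Z : Subgroup D} {β d : X → D → ℂ} {n : D → ℤ} (h : LAD p M Z ⊥ β d n) (hc : LAC M Z ⊥ β d) :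
    Nat.card X ≤ Nat.card D := by
  classical
  let _ : CommGroup D := { ‹Group D› with mul_comm := h.com }
  have := Fintype.ofFinite X
  have hZc : ∀ a b : Z, a * b = b * a := fun a b => Subtype.ext (h.com a b)
  have hv : ∀ χ, ∃ l₀ : D →* ℂˣ, ∀ z ∈ Z, ∀ u, β χ (z * u) = lv l₀ z * β χ u := by
    intro χ
    obtain ⟨v, hv⟩ := h.h5 χ
    obtain ⟨l, hl⟩ := exists_ext Z v
    refine ⟨l, fun z hz u => ?_⟩
    have h1 := hv ⟨z, hz⟩ u
    have h2 := hl ⟨z, hz⟩
    rw [← h2] at h1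
    exact h1
  choose l hl using hv
  have : Fintype (Z →* ℂˣ) := Fintype.ofFinite _
  let r : X → (Z →* ℂˣ) := fun χ => (l χ).comp Z.subtype
  have h1 : ∀ v ∈ (Finset.univ : Finset (Z →* ℂˣ)), ((Finset.univ : Finset X).filter fun χ => r χ = v).card ≤ Z.index := by
    intro v _
    by_cases hne : ∃ χ₀, r χ₀ = v
    · obtain ⟨χ₀, hχ₀⟩ := hne
      have h2 := hc.c1 (l χ₀) (fun t ht u => by
        have h3 : t = 1 := Subgroup.mem_bot.1 ht
        rw [h3]
        rfl)
      have h3 : Nat.card (⊥ : Subgroup (MulAut D)) = 1 := Subgroup.card_bot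
      rw [h3] at h2
      have hidx : 1 ≤ Z.index := Nat.one_le_iff_ne_zero.2 Subgroup.index_ne_zero_of_finite
      have h4 : ((Finset.univ : Finset X).filter fun χ => r χ = v).card ≤
          {χ : X | ∀ z ∈ Z, ∀ u, β χ (z * u) = lv (l χ₀) z * β χ u}.ncard := by
        rw [← Set.ncard_coe_finset]
        refine Set.ncard_le_ncard ?_ (Set.toFinite _)
        intro χ hχ
        rw [Finset.mem_coe, Finset.mem_filter] at hχ
        intro z hz u
        have h5 : r χ = r χ₀ := hχ.2.trans hχ₀.symm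
        have h6 : lv (l χ) z = lv (l χ₀) z := by
          have h7 := DFunLike.congr_fun h5 ⟨z, hz⟩
          exact congrArg (fun w : ℂˣ => (w : ℂ)) h7
        rw [← h6]
        exact hl χ z hz u
      omega
    · have h2 : ((Finset.univ : Finset X).filter fun χ => r χ = v) = ∅ := by
        refine Finset.filter_eq_empty_iff.2 fun χ _ h3 => hne ⟨χ, h3⟩
      rw [h2]
      simp
  have h2 := Finset.card_le_mul_card_image_of_maps_to (s := (Finset.univ : Finset X))
    (t := (Finset.univ : Finset (Z →* ℂˣ))) (f := r) (fun _ _ => Finset.mem_univ _) Z.index h1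
  have h3 : (Finset.univ : Finset (Z →* ℂˣ)).card = Nat.card Z := by
    rw [Finset.card_univ, ← Nat.card_eq_fintype_card]
    exact card_lch
  rw [h3, Finset.card_univ, ← Nat.card_eq_fintype_card] at h2
  refine h2.trans (le_of_eq ?_)
  rw [mul_comm]
  exact Subgroup.card_mul_index Z

/-- The number of characters. -/
theorem QK0 {D X : Type} [Group D] [Finite D] [Finite X] (Z : Subgroup D) (d : X → D → ℂ)
    (e : X → ℂ) (l i : ℕ) (hi : i ≠ 0) (hE : ∑ᶠ χ, e χ = l)
    (hmx : ∀ χ, (1 : ℂ) = Nat.card Z * e χ +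
      ((∑ᶠ u ∈ {u : D | u ∉ Z}, ‖d χ u‖ ^ 2 : ℝ) : ℂ) / (Nat.card D * i))
    (h4b : ∀ u, u ∉ Z → ∑ᶠ χ, d χ u * (starRingEnd ℂ) (d χ u) = (Nat.card D : ℂ)) :
    i * Nat.card X + Nat.card Z = i * Nat.card Z * l + Nat.card D := by
  classical
  have := Fintype.ofFinite X
  have := Fintype.ofFinite D
  have hDC : (Nat.card D : ℂ) ≠ 0 := by exact_mod_cast Nat.card_pos.ne'
  have hiC : (i : ℂ) ≠ 0 := by exact_mod_cast hi
  have hsum : ∀ χ, (∑ᶠ u ∈ {u : D | u ∉ Z}, ‖d χ u‖ ^ 2 : ℝ) =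
      ∑ u ∈ Finset.univ.filter (fun u : D => u ∉ Z), ‖d χ u‖ ^ 2 := by
    intro χ
    rw [finsum_mem_def, finsum_eq_sum_of_fintype, Finset.sum_filter]
    refine Finset.sum_congr rfl fun u _ => ?_
    by_cases hu : u ∉ Z
    · rw [Set.indicator_of_mem (by exact hu), if_pos hu]
    · rw [Set.indicator_of_notMem (by exact hu), if_neg hu]
  have h1 : (Nat.card X : ℂ) = ∑ χ : X, (Nat.card Z * e χ +
      ((∑ᶠ u ∈ {u : D | u ∉ Z}, ‖d χ u‖ ^ 2 : ℝ) : ℂ) / (Nat.card D * i)) := by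
    rw [← Finset.sum_congr rfl (fun χ _ => hmx χ)]
    simp
  rw [Finset.sum_add_distrib, ← Finset.mul_sum, ← Finset.sum_div] at h1
  rw [finsum_eq_sum_of_fintype] at hE
  rw [hE] at h1
  have h2 : ∑ χ : X, ((∑ᶠ u ∈ {u : D | u ∉ Z}, ‖d χ u‖ ^ 2 : ℝ) : ℂ) =
      ((Finset.univ.filter (fun u : D => u ∉ Z)).card : ℂ) * Nat.card D := by
    have h3 : ∀ χ : X, ((∑ᶠ u ∈ {u : D | u ∉ Z}, ‖d χ u‖ ^ 2 : ℝ) : ℂ) =
        ∑ u ∈ Finset.univ.filter (fun u : D => u ∉ Z), d χ u * (starRingEnd ℂ) (d χ u) := by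
      intro χ
      rw [hsum χ]
      push_cast
      refine Finset.sum_congr rfl fun u _ => ?_
      rw [Complex.mul_conj, Complex.normSq_eq_norm_sq]
      push_cast
      rfl
    rw [Finset.sum_congr rfl (fun χ _ => h3 χ), Finset.sum_comm]
    have h4 : ∀ u ∈ Finset.univ.filter (fun u : D => u ∉ Z),
        ∑ χ : X, d χ u * (starRingEnd ℂ) (d χ u) = Nat.card D := by
      intro u hu
      have h5 := h4b u (Finset.mem_filter.1 hu).2
      rw [finsum_eq_sum_of_fintype] at h5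
      exact h5
    rw [Finset.sum_congr rfl h4, Finset.sum_const, nsmul_eq_mul]
  have h5 : (Finset.univ.filter (fun u : D => u ∉ Z)).card + Nat.card Z = Nat.card D := by
    have h6 := Finset.card_filter_add_card_filter_not (s := (Finset.univ : Finset D)) (fun u : D => u ∈ Z)
    have h7 : (Finset.univ.filter (fun u : D => u ∈ Z)).card = Nat.card Z := by
      rw [← Nat.card_eq_finsetCard]
      refine Nat.card_congr (Equiv.subtypeEquivRight fun u => ?_)
      simp
    rw [h7, Finset.card_univ, ← Nat.card_eq_fintype_card] at h6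
    omega
  rw [h2] at h1
  have h6 : (i : ℂ) * Nat.card X + Nat.card Z = i * Nat.card Z * l + Nat.card D := by
    have h8 : (Nat.card D : ℂ) = ((Finset.univ.filter (fun u : D => u ∉ Z)).card : ℂ) + Nat.card Z := by
      exact_mod_cast h5.symm
    rw [h1, mul_add]
    have h7 : (i : ℂ) * (((Finset.univ.filter (fun u : D => u ∉ Z)).card : ℂ) * Nat.card D /
        (Nat.card D * i)) = ((Finset.univ.filter (fun u : D => u ∉ Z)).card : ℂ) := by
      field_simp
    rw [h7, h8]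
    ring
  exact_mod_cast h6

/-- The local case. -/
theorem QK2 {D X : Type} [Group D] [Finite D] [Fintype X] (Z : Subgroup D) (d : X → D → ℂ)
    (E : X → X → ℂ) (l : ℕ) (hl : 1 ≤ l) (hE : ∑ χ, E χ χ = l)
    (hid : ∀ x z, ∑ y, E x y * E y z = E x z) (hher : ∀ x y, E y x = (starRingEnd ℂ) (E x y))
    (hmx : ∀ χ, (1 : ℂ) = Nat.card Z * E χ χ +
      ((∑ᶠ u ∈ {u : D | u ∉ Z}, ‖d χ u‖ ^ 2 : ℝ) : ℂ) / (Nat.card D))
    (h4b : ∀ u, u ∉ Z → ∑ᶠ χ, d χ u * (starRingEnd ℂ) (d χ u) = (Nat.card D : ℂ))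
    (hc : Nat.card X ≤ Nat.card D)
    (hc2 : ∀ χ, (Nat.card D : ℝ) - Nat.card Z ≤ ∑ᶠ u ∈ {u : D | u ∉ Z}, ‖d χ u‖ ^ 2) :
    Nat.card X = Nat.card D ∧ (∀ χ, E χ χ = 1 / Nat.card D) ∧
      ∀ χ χ', ‖E χ χ'‖ = 1 / Nat.card D := by
  have h1 := QK0 Z d (fun χ => E χ χ) l 1 one_ne_zero (by rw [finsum_eq_sum_of_fintype]; exact hE)
    (fun χ => by rw [Nat.cast_one, mul_one]; exact hmx χ) h4b
  have hZ : 0 < Nat.card Z := Nat.card_pos
  have hD : (0 : ℝ) < Nat.card D := by exact_mod_cast Nat.card_pos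
  have hZR : (0 : ℝ) < Nat.card Z := by exact_mod_cast hZ
  rw [one_mul, one_mul] at h1
  have hl1 : l = 1 := by
    by_contra hne
    have h2 : 2 ≤ l := by omega
    have h3 : Nat.card Z * 2 ≤ Nat.card Z * l := Nat.mul_le_mul_left _ h2
    omega
  have hXD : Nat.card X = Nat.card D := by
    rw [hl1, mul_one] at h1
    omega
  have hle : ∀ χ, (E χ χ).re ≤ 1 / Fintype.card X := by
    intro χ
    have h2 := congrArg Complex.re (hmx χ)
    rw [Complex.one_re, Complex.add_re, ← Complex.ofReal_natCast (Nat.card Z),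
      ← Complex.ofReal_natCast (Nat.card D), ← Complex.ofReal_div, Complex.ofReal_re,
      Complex.re_ofReal_mul] at h2
    have h3 := hc2 χ
    have h4 : ((Nat.card D : ℝ) - Nat.card Z) / Nat.card D ≤
        (∑ᶠ u ∈ {u : D | u ∉ Z}, ‖d χ u‖ ^ 2) / Nat.card D :=
      div_le_div_of_nonneg_right h3 hD.le
    have h5 : (Nat.card Z : ℝ) * (E χ χ).re ≤ Nat.card Z * (1 / Nat.card D) := by
      have h6 : ((Nat.card D : ℝ) - Nat.card Z) / Nat.card D = 1 - Nat.card Z * (1 / Nat.card D) := by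
        field_simp
      rw [h6] at h4
      linarith
    have h7 := le_of_mul_le_mul_left h5 hZR
    rw [← Nat.card_eq_fintype_card, hXD]
    exact h7
  have h8 := PQ_E E hid hher (by rw [hE, hl1, Nat.cast_one]) hle
  rw [← Nat.card_eq_fintype_card, hXD] at h8
  exact ⟨hXD, h8.1, h8.2⟩

end Pool.Agent.FI
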