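import Mathlib
import Pool.Agent.helper59.FI.Base
import Pool.Agent.helper22.FI.SpecA
import Pool.Agent.helper12.FI.SpecQ

/-!
# Project fi (MP_baa4d7_al): all local blocks are good
-/

set_option autoImplicit false

namespace Pool.Agent.FI

open Pool.Agent.helper58.DC Pool.Agent.DI Pool.Agent.GR Pool.Agent.OB Pool.Agent.DR

theorem QGO_le {G : Type} [Group G] {p : ℕ} {M : Ideal (integralClosure ℤ ℂ)} {D : Subgroup G} {x : G}
    {θ χ : G → ℂ} (hR : Rt p M D x θ χ) {P : Subgroup G} (hP : P ≤ D) : cz D ≤ cz P ∧ D ≤ cz P :=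
  ⟨cz_mono hP, (le_cz_of_com hR.com).trans (cz_mono hP)⟩

/-- The block of `θ` in `cz P` is not empty. -/
theorem QGO_ne (hEXB : EXB_stmt) {p : ℕ} {M : Ideal (integralClosure ℤ ℂ)} (hS : Setup p M) {G : Type}
    [Group G] [Finite G] {D : Subgroup G} {x : G} {θ χ : G → ℂ} (hR : Rt p M D x θ χ) {P : Subgroup G}
    (hP : P ≤ D) : ∃ ψ ∈ IrrOn (cz P), SB M (cz P) θ ψ := by
  have h1 : cz P ⊓ cz D = cz D := inf_eq_right.2 (QGO_le hR hP).1
  have h2 : θ ∈ IrrOn (cz P ⊓ cz D) := by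
    rw [h1]
    exact hR.th
  exact hEXB p M hS G (cz P) D hR.dfa.pgrp (QGO_le hR hP).2 θ h2

theorem Good_congr {G : Type} [Group G] {p : ℕ} {M : Ideal (integralClosure ℤ ℂ)} {D L : Subgroup G}
    {ψ θ : G → ℂ} (h : SB M L θ ψ) (hg : Good p M D L ψ) : Good p M D L θ := by
  have h1 : Bl M L θ = Bl M L ψ := by
    ext φ
    constructor
    · rintro ⟨h2, h3⟩
      exact ⟨h2, h3.trans h⟩
    · rintro ⟨h2, h3⟩
      exact ⟨h2, h3.trans h.symm⟩
  exact ⟨h1 ▸ hg.card, fun a ha b hb => hg.reg a (h1 ▸ ha) b (h1 ▸ hb)⟩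

theorem QGO (hGDC : GDC_stmt) (hDFL : DFL_stmt) (hEXB : EXB_stmt) (hQGL : QGL_stmt) : QGO_stmt := by
  intro p M hS hp G _ _ D x θ χ h
  have key : ∀ n : ℕ, ∀ P ≤ D, P ≠ ⊥ → Nat.card (cz P) = n → Good p M D (cz P) θ := by
    intro n
    induction n using Nat.strong_induction_on with
    | _ n ih =>
      intro P hP hPn hn
      by_cases hu : ∃ u ∈ D, ¬ Cen (cz P) u
      · refine hQGL p M hS hp G D x θ χ h P hP hPn hu fun u hu' hc => ?_
        rw [← cz_sup_zpowers]
        have hle : P ⊔ Subgroup.zpowers u ≤ D :=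
          sup_le hP (Subgroup.zpowers_le.2 hu')
        have hne : P ⊔ Subgroup.zpowers u ≠ ⊥ := by
          intro h1
          exact hPn (le_bot_iff.1 (h1 ▸ le_sup_left))
        refine ih _ ?_ _ hle hne rfl
        rw [← hn, cz_sup_zpowers]
        have hlt : Cz (cz P) u < cz P := by
          refine lt_of_le_of_ne (fun g hg => (mem_Cz.1 hg).1) fun h1 => hc ?_
          intro l hl
          rw [← h1] at hl
          exact (mem_Cz.1 hl).2.symm
        exact Set.ncard_lt_ncard (SetLike.coe_ssubset_coe.2 hlt) (Set.toFinite _)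
      · push Not at hu
        obtain ⟨ψ, hψ, hSB⟩ := QGO_ne hEXB hS h.rt hP
        obtain ⟨x', -, -, hdef⟩ := hDFL p M hS G D x θ χ h.rt P hP ψ hψ hSB
        have hle : cz P ≤ cz D := by
          intro l hl
          rw [Subgroup.mem_centralizer_iff]
          intro d hd
          exact (hu d hd l hl).symm
        exact Good_congr hSB (hGDC p M hS G (cz P) D x' hle ψ hψ hdef)
  intro P hP hPn
  exact key _ P hP hPn rfl

end Pool.Agent.FI
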