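import Mathlib
import Pool.Agent.helper12.FI.DefsQ

/-!
# Project fi (MP_baa4d7_al): translation of the definitions of the statement
-/

set_option autoImplicit false

namespace Pool.Agent.FI

open Pool.Agent.helper58.DC Pool.Agent.DI Pool.Agent.GR Pool.Agent.OB

variable {G : Type} [Group G]

theorem Tr_omegaIn [Finite G] (H : Subgroup G) (ψ : G → ℂ) (h : G) :
    Pool.Agent.FIW.omegaIn H ψ h = cc ψ (cls H h) := by
  classical
  have : Fintype G := Fintype.ofFinite G
  unfold Pool.Agent.FIW.omegaIn cc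
  congr 1
  rw [finsum_mem_def]
  refine finsum_congr fun x => ?_
  unfold cls
  by_cases hx : ∃ l ∈ H, l * h * l⁻¹ = x
  · rw [Set.indicator_of_mem (by exact hx), if_pos hx, one_mul]
  · rw [Set.indicator_of_notMem (by exact hx), if_neg hx, zero_mul]

theorem Tr_cls_CF (H : Subgroup G) {h : G} (hh : h ∈ H) : CF H (cls H h) := by
  constructor
  · intro k hk x
    unfold cls
    congr 1
    apply propext
    constructor
    · rintro ⟨l, hl, e⟩
      refine ⟨k⁻¹ * l, H.mul_mem (H.inv_mem hk) hl, ?_⟩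
      have : k⁻¹ * l * h * (k⁻¹ * l)⁻¹ = k⁻¹ * (l * h * l⁻¹) * k := by group
      rw [this, e]
      group
    · rintro ⟨l, hl, e⟩
      refine ⟨k * l, H.mul_mem hk hl, ?_⟩
      have : k * l * h * (k * l)⁻¹ = k * (l * h * l⁻¹) * k⁻¹ := by group
      rw [this, e]
  · intro x hx
    unfold cls
    rw [if_neg]
    rintro ⟨l, hl, e⟩
    exact hx (e ▸ H.mul_mem (H.mul_mem hl hh) (H.inv_mem hl))

theorem Tr_cls_int (H : Subgroup G) (h x : G) : IsIntegral ℤ (cls H h x) := by
  unfold cls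
  split_ifs
  · exact isIntegral_one
  · exact isIntegral_zero

/-- conjugacy under `H` -/
def Tr_setoid (H : Subgroup G) : Setoid G where
  r x y := ∃ l ∈ H, l * x * l⁻¹ = y
  iseqv := {
    refl := fun x => ⟨1, H.one_mem, by group⟩
    symm := by
      rintro x y ⟨l, hl, e⟩
      exact ⟨l⁻¹, H.inv_mem hl, by rw [← e]; group⟩
    trans := by
      rintro x y z ⟨l, hl, e⟩ ⟨k, hk, e'⟩
      exact ⟨k * l, H.mul_mem hk hl, by rw [← e', ← e]; group⟩ }

theorem Tr_decomp [Finite G] (H : Subgroup G) (ψ z : G → ℂ) (hz : CF H z) :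
    cc ψ z = ∑ᶠ q : Quotient (Tr_setoid H), z q.out * cc ψ (cls H q.out) := by
  classical
  have : Fintype G := Fintype.ofFinite G
  have : Fintype (Quotient (Tr_setoid H)) := Fintype.ofFinite _
  unfold cc
  rw [finsum_eq_sum_of_fintype, finsum_eq_sum_of_fintype]
  simp only [finsum_eq_sum_of_fintype]
  have h1 : ∀ q : Quotient (Tr_setoid H), z q.out * ((∑ x, cls H q.out x * ψ x) / ψ 1) =
      (∑ x, z q.out * (cls H q.out x * ψ x)) / ψ 1 := by
    intro q
    rw [← Finset.mul_sum]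
    ring
  rw [Finset.sum_congr rfl (fun q _ => h1 q), ← Finset.sum_div, Finset.sum_comm]
  congr 1
  refine Finset.sum_congr rfl fun x _ => ?_
  rw [Finset.sum_eq_single (Quotient.mk (Tr_setoid H) x)]
  · have h2 : (Tr_setoid H).r (Quotient.mk (Tr_setoid H) x).out x := Quotient.mk_out (s := Tr_setoid H) x
    obtain ⟨l, hl, e⟩ := h2
    have h3 : cls H (Quotient.mk (Tr_setoid H) x).out x = 1 := by
      unfold cls
      rw [if_pos ⟨l, hl, e⟩]
    have h4 := hz.1 l hl (Quotient.mk (Tr_setoid H) x).out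
    rw [e] at h4
    rw [h3, one_mul, h4]
  · intro q _ hq
    have h3 : cls H q.out x = 0 := by
      unfold cls
      rw [if_neg]
      rintro ⟨l, hl, e⟩
      apply hq
      rw [← Quotient.out_eq q]
      exact Quotient.sound (s := Tr_setoid H) ⟨l, hl, e⟩
    rw [h3]
    ring
  · intro h
    exact absurd (Finset.mem_univ _) h

theorem Tr_SB [Finite G] (M : Ideal (integralClosure ℤ ℂ)) (H : Subgroup G) (ψ ψ' : G → ℂ) :
    Pool.Agent.FIW.SameBlock M H ψ ψ' ↔ SB M H ψ ψ' := by
  classical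
  have : Fintype G := Fintype.ofFinite G
  have : Fintype (Quotient (Tr_setoid H)) := Fintype.ofFinite _
  constructor
  · intro h z hz hi
    have h1 : ∀ q : Quotient (Tr_setoid H), ∃ c ∈ M,
        z q.out * cc ψ (cls H q.out) - z q.out * cc ψ' (cls H q.out) =
          ((c : integralClosure ℤ ℂ) : ℂ) := by
      intro q
      by_cases hq : q.out ∈ H
      · obtain ⟨a, ha, e⟩ := h _ hq
        rw [Tr_omegaIn, Tr_omegaIn] at e
        refine ⟨⟨z q.out, hi _⟩ * a, M.mul_mem_left _ ha, ?_⟩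
        push_cast
        rw [← e]
        ring
      · refine ⟨0, M.zero_mem, ?_⟩
        rw [hz.2 _ hq]
        simp
    choose c hc e using h1
    refine ⟨∑ q, c q, M.sum_mem fun q _ => hc q, ?_⟩
    rw [Tr_decomp H ψ z hz, Tr_decomp H ψ' z hz, finsum_eq_sum_of_fintype, finsum_eq_sum_of_fintype,
      ← Finset.sum_sub_distrib, Finset.sum_congr rfl (fun q _ => e q)]
    push_cast
    rfl
  · intro h g hg
    obtain ⟨c, hc, e⟩ := h _ (Tr_cls_CF H hg) (Tr_cls_int H g)
    refine ⟨c, hc, ?_⟩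
    rw [Tr_omegaIn, Tr_omegaIn]
    exact e

theorem Tr_inertial [Finite G] (M : Ideal (integralClosure ℤ ℂ)) (D : Subgroup G) (θ : G → ℂ) (g : G) :
    g ∈ Pool.Agent.FIW.inertial M D θ ↔ g ∈ TT M D θ := by
  change (g ∈ Subgroup.normalizer (D : Set G) ∧ Pool.Agent.FIW.SameBlock M _ _ _) ↔ (g ∈ nz D ∧ SB M (cz D) _ _)
  rw [Tr_SB]

end Pool.Agent.FI
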