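import Mathlib
import Pool.Agent.helper59.FI.Base
import Pool.Agent.helper12.FI.Tr

/-!
# Project fi (MP_baa4d7_al): the contradiction in row QNZ
-/

set_option autoImplicit false

namespace Pool.Agent.FI

open Pool.Agent.helper58.DC Pool.Agent.DI Pool.Agent.GR Pool.Agent.OB

theorem int_of_rat {q : ℚ} (h : IsIntegral ℤ (q : ℂ)) : ∃ n : ℤ, q = n := by
  have h1 : IsIntegral ℤ q := by
    refine (isIntegral_algebraMap_iff (R := ℤ) (algebraMap ℚ ℂ).injective).1 ?_
    simpa using h
  obtain ⟨n, hn⟩ := IsIntegrallyClosed.isIntegral_iff.1 h1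
  exact ⟨n, by rw [← hn]; simp⟩

theorem NZA_valle {p : ℕ} (hpr : p.Prime) {a b : ℕ} (ha : a ≠ 0) (h : a ∣ b) (hb : b ≠ 0) :
    padicValNat p a ≤ padicValNat p b := by
  have : Fact p.Prime := ⟨hpr⟩
  obtain ⟨c, rfl⟩ := h
  have hc : c ≠ 0 := by
    rintro rfl
    exact hb (mul_zero a)
  rw [padicValNat.mul ha hc]
  omega

/-- A character which is concentrated on the sections of a small central subgroup cannot exist. -/
theorem NZA {p : ℕ} {M : Ideal (integralClosure ℤ ℂ)} (hS : Setup p M) {G : Type} [Group G] [Finite G]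
    {L D Z : Subgroup G} (hZD : Nat.card Z < Nat.card D) (hZp : IsPGroup p Z) {ψ : G → ℂ}
    (hψ : ψ ∈ IrrOn L) {x' : G} (hd : DefL p M L ψ D x') {n : ℕ} (hn : ψ 1 = n)
    (hE : EE p L ψ ψ = 1 / Nat.card Z)
    (hv : padicValNat p (Nat.card L) ≤ padicValNat p n + padicValNat p (Nat.card Z)) : False := by
  classical
  have := Fintype.ofFinite G
  have hpr := hS.pr
  have : Fact p.Prime := ⟨hpr⟩
  have hn0 : n ≠ 0 := by
    rintro rfl
    exact IrrOn_ne hψ (by rw [hn]; simp)
  have hZ0 : Nat.card Z ≠ 0 := Nat.card_pos.ne'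
  have hL0 : Nat.card L ≠ 0 := Nat.card_pos.ne'
  have hnC : (n : ℂ) ≠ 0 := by exact_mod_cast hn0
  have hZC : (Nat.card Z : ℂ) ≠ 0 := by exact_mod_cast hZ0
  have hLC : (Nat.card L : ℂ) ≠ 0 := by exact_mod_cast hL0
  -- the class function
  let f : G → ℂ := fun v => if v ∈ L ∧ PReg p v then ψ v⁻¹ else 0
  have hPc : ∀ l v : G, PReg p (l * v * l⁻¹) ↔ PReg p v := by
    intro l v
    unfold PReg
    rw [show l * v * l⁻¹ = MulAut.conj l v from rfl, MulEquiv.orderOf_eq]
  have hfCF : CF L f := by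
    constructor
    · intro l hl v
      have h1 : (l * v * l⁻¹ ∈ L ∧ PReg p (l * v * l⁻¹)) ↔ (v ∈ L ∧ PReg p v) := by
        rw [hPc]
        refine and_congr_left fun _ => ?_
        constructor
        · intro h
          have h2 := L.mul_mem (L.mul_mem (L.inv_mem hl) h) hl
          have h3 : l⁻¹ * (l * v * l⁻¹) * l = v := by group
          rwa [h3] at h2
        · intro h
          exact L.mul_mem (L.mul_mem hl h) (L.inv_mem hl)
      change (if _ then ψ (l * v * l⁻¹)⁻¹ else 0) = if _ then ψ v⁻¹ else 0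
      have h4 : ψ (l * v * l⁻¹)⁻¹ = ψ v⁻¹ := by
        have h5 : (l * v * l⁻¹)⁻¹ = l * v⁻¹ * l⁻¹ := by group
        rw [h5]
        exact IrrOn_conj hψ hl _
      rw [h4]
      exact if_congr h1 rfl rfl
    · intro v hv
      change (if _ then ψ v⁻¹ else 0) = 0
      rw [if_neg fun h => hv h.1]
  have hfi : ∀ v, IsIntegral ℤ (f v) := by
    intro v
    change IsIntegral ℤ (if _ then ψ v⁻¹ else 0)
    split_ifs
    · exact IrrOn_int hψ _
    · exact isIntegral_zero
  have hcc : cc ψ f = ((Nat.card L / (Nat.card Z * n) : ℚ) : ℂ) := by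
    have h1 : ∑ᶠ x, f x * ψ x = Nat.card L * EE p L ψ ψ := by
      unfold EE
      rw [mul_div_cancel₀ _ hLC, finsum_mem_def]
      refine finsum_congr fun v => ?_
      by_cases hv : v ∈ L ∧ PReg p v
      · rw [Set.indicator_of_mem (by exact hv)]
        change (if _ then ψ v⁻¹ else 0) * ψ v = _
        rw [if_pos hv, mul_comm]
      · rw [Set.indicator_of_notMem (by exact hv)]
        change (if _ then ψ v⁻¹ else 0) * ψ v = _
        rw [if_neg hv, zero_mul]
    unfold cc
    rw [h1, hE, hn]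
    push_cast
    field_simp
  have hint : IsIntegral ℤ (cc ψ f) := (C3 G).1 L ψ hψ f (fun l hl v => hfCF.1 l hl v) hfi
  rw [hcc] at hint
  obtain ⟨N, hN⟩ := int_of_rat hint
  have hNL : (Nat.card L : ℤ) = N * (Nat.card Z * n) := by
    have h1 : ((Nat.card L : ℕ) : ℚ) = N * (Nat.card Z * n) := by
      rw [← hN]
      have h2 : ((Nat.card Z : ℕ) : ℚ) ≠ 0 := by exact_mod_cast hZ0
      have h3 : (n : ℚ) ≠ 0 := by exact_mod_cast hn0
      field_simp
    exact_mod_cast h1
  have hNpos : 0 < N := by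
    by_contra h
    push Not at h
    have h1 : (0 : ℤ) < Nat.card L := by exact_mod_cast Nat.card_pos
    have h2 : (0 : ℤ) ≤ Nat.card Z * n := by positivity
    nlinarith
  obtain ⟨N, rfl⟩ : ∃ m : ℕ, N = m := ⟨N.toNat, by omega⟩
  have hNL' : Nat.card L = N * (Nat.card Z * n) := by exact_mod_cast hNL
  have hN0 : N ≠ 0 := by
    rintro rfl
    simp at hNpos
  have hpN : ¬ p ∣ N := by
    intro hp
    have h1 := congrArg (padicValNat p) hNL'
    rw [padicValNat.mul hN0 (mul_ne_zero hZ0 hn0), padicValNat.mul hZ0 hn0] at h1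
    have h2 : 1 ≤ padicValNat p N := one_le_padicValNat_of_dvd hN0 hp
    omega
  have hvL : padicValNat p (Nat.card L) = padicValNat p (Nat.card Z) + padicValNat p n := by
    have h1 := congrArg (padicValNat p) hNL'
    rw [padicValNat.mul hN0 (mul_ne_zero hZ0 hn0), padicValNat.mul hZ0 hn0,
      padicValNat.eq_zero_of_not_dvd hpN] at h1
    omega
  have hccN : cc ψ f = (N : ℂ) := by
    rw [hcc, hN]
    push_cast
    rfl
  have hnot : ¬ InM M (cc ψ f) := by
    rw [hccN, InM.natCast hS]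
    exact hpN
  rw [Tr_decomp L ψ f hfCF] at hnot
  obtain ⟨q, hq⟩ : ∃ q : Quotient (Tr_setoid L), ¬ InM M (f q.out * cc ψ (cls L q.out)) := by
    by_contra hcon
    push Not at hcon
    exact hnot (InM.finsum hS hcon)
  set y := q.out with hy
  have hccy : IntAt M (cc ψ (cls L y)) := IntAt.of_isIntegral hS (cc_cls_int le_rfl hψ y)
  have hfy : ¬ InM M (f y) := fun h => hq (InM.mul_right hS h hccy)
  have hyc : ¬ InM M (cc ψ (cls L y)) := fun h => hq (InM.mul_left hS (IntAt.of_isIntegral hS (hfi y)) h)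
  have hyL : y ∈ L ∧ PReg p y := by
    by_contra h
    apply hfy
    change InM M (if _ then ψ y⁻¹ else 0)
    rw [if_neg h]
    exact InM.zero hS
  have hyi : ¬ InM M (ψ y⁻¹) := by
    intro h
    apply hfy
    change InM M (if _ then ψ y⁻¹ else 0)
    rw [if_pos hyL]
    exact h
  -- the centraliser of `y`
  have hmin := hd.min y hyL.1 hyc
  have hCi : Nat.card (Cz L y⁻¹) = Nat.card (Cz L y) := by
    congr 1
    have : Cz L y⁻¹ = Cz L y := by
      ext g
      rw [mem_Cz, mem_Cz]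
      refine and_congr_right fun _ => ?_
      constructor
      · intro h
        calc y * g = y * (g * y⁻¹) * y := by group
          _ = y * (y⁻¹ * g) * y := by rw [h]
          _ = g * y := by group
      · intro h
        calc y⁻¹ * g = y⁻¹ * (g * y) * y⁻¹ := by group
          _ = y⁻¹ * (y * g) * y⁻¹ := by rw [h]
          _ = g * y⁻¹ := by group
    rw [this]
  have hC0 : Nat.card (Cz L y) ≠ 0 := Nat.card_pos.ne'
  have hkey := cc_cls hψ y⁻¹
  rw [hCi, hn] at hkey
  -- `ψ y⁻¹ = cc * |C| n / |L|`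
  have hCL : Nat.card (Cz L y) ∣ Nat.card L := by
    have h1 : Cz L y ≤ L := fun g hg => (mem_Cz.1 hg).1
    exact Subgroup.card_dvd_of_le h1
  obtain ⟨k, hk⟩ := hCL
  have hk0 : k ≠ 0 := by
    rintro rfl
    exact hL0 (by rw [hk, mul_zero])
  have hkey2 : (k : ℂ) * ψ y⁻¹ = n * cc ψ (cls L y⁻¹) := by
    have h1 : (Nat.card (Cz L y) : ℂ) ≠ 0 := by exact_mod_cast hC0
    have h2 : (Nat.card (Cz L y) : ℂ) * (k * ψ y⁻¹) = Nat.card (Cz L y) * (n * cc ψ (cls L y⁻¹)) := by
      have h3 : (Nat.card (Cz L y) : ℂ) * (n * cc ψ (cls L y⁻¹)) =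
          n * (Nat.card (Cz L y) * cc ψ (cls L y⁻¹)) := by ring
      rw [h3, hkey, hk]
      push_cast
      field_simp
    exact mul_left_cancel₀ h1 h2
  have hvk : padicValNat p (Nat.card L) = padicValNat p (Nat.card (Cz L y)) + padicValNat p k := by
    rw [hk, padicValNat.mul hC0 hk0]
  have hvn : padicValNat p n ≤ padicValNat p k := by
    by_contra hlt
    push Not at hlt
    apply hyi
    obtain ⟨k', hk'⟩ : ∃ k', k = p ^ padicValNat p k * k' := pow_padicValNat_dvd
    obtain ⟨n', hn'⟩ : ∃ n', n = p ^ padicValNat p n * n' := pow_padicValNat_dvd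
    set e := padicValNat p k with he
    obtain ⟨j, hj⟩ : ∃ j, padicValNat p n = e + (j + 1) := ⟨padicValNat p n - e - 1, by omega⟩
    have hpk' : ¬ p ∣ k' := by
      rintro ⟨c, rfl⟩
      have h1 : p ^ (e + 1) ∣ k := ⟨c, by rw [hk']; ring⟩
      have h2 := (padicValNat_dvd_iff_le hk0).1 h1
      omega
    have hpC : (p : ℂ) ^ e ≠ 0 := pow_ne_zero _ hS.p_ne
    have h3 : (k' : ℂ) * ψ y⁻¹ = p * (p ^ j * n' * cc ψ (cls L y⁻¹)) := by
      apply mul_left_cancel₀ hpC
      have h4 : (p : ℂ) ^ e * (k' * ψ y⁻¹) = k * ψ y⁻¹ := by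
        conv_rhs => rw [hk']
        push_cast
        ring
      have h5 : (p : ℂ) ^ e * (p * (p ^ j * n' * cc ψ (cls L y⁻¹))) = n * cc ψ (cls L y⁻¹) := by
        conv_rhs => rw [hn', hj]
        push_cast
        ring
      rw [h4, h5, hkey2]
    have hint2 : IntAt M ((p : ℂ) ^ j * n' * cc ψ (cls L y⁻¹)) := by
      refine IntAt.mul hS (IntAt.mul hS (IntAt.pow hS (IntAt.natCast hS p) j) (IntAt.natCast hS n')) ?_
      exact IntAt.of_isIntegral hS (cc_cls_int le_rfl hψ _)
    have h6 : InM M ((k' : ℂ) * ψ y⁻¹) := by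
      rw [h3]
      exact InM.mul_right hS (InM.prime_mem hS) hint2
    rcases InM.or hS (IntAt.natCast hS k') (IntAt.of_isIntegral hS (IrrOn_int hψ _)) h6 with h7 | h7
    · exact absurd ((InM.natCast hS k').1 h7) hpk'
    · exact h7
  -- compare
  obtain ⟨a, ha⟩ := IsPGroup.iff_card.1 hZp
  have hvZ : padicValNat p (Nat.card Z) = a := by rw [ha, padicValNat.prime_pow]
  have h8 : p ^ a < p ^ padicValNat p (Nat.card (Cz L y)) := by
    rw [← ha]
    exact lt_of_lt_of_le hZD hmin
  have h9 : a < padicValNat p (Nat.card (Cz L y)) := (Nat.pow_lt_pow_iff_right hpr.one_lt).1 h8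
  omega

end Pool.Agent.FI
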