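import Mathlib
import Pool.Agent.helper59.FI.Base
import Pool.Agent.helper40.FI.Basic
import Pool.Agent.helper40.GR.SCH
import Pool.Agent.helper12.FI.DefsQ

/-!
# Project fi (MP_baa4d7_al): the central character on central elements
-/

set_option autoImplicit false

namespace Pool.Agent.FI

open Pool.Agent.helper58.DC Pool.Agent.DI Pool.Agent.GR Pool.Agent.OB

theorem QCC_mul {G : Type} [Group G] [Finite G] {H : Subgroup G} {s : G} (hs : s ∈ H)
    (hc : ∀ h ∈ H, h * s = s * h) {ψ : G → ℂ} (hψ : ψ ∈ IrrOn H) (h : G) :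
    ψ 1 * ψ (s * h) = ψ s * ψ h := by
  classical
  by_cases hh : h ∈ H
  · have h1 := SCH G H ψ hψ h hh s
    have h2 : ∑ᶠ t ∈ (H : Set G), ψ (h * (t * s * t⁻¹)) = Nat.card H * ψ (s * h) := by
      have h3 : ∑ᶠ t ∈ (H : Set G), ψ (h * (t * s * t⁻¹)) = ∑ᶠ t ∈ (H : Set G), ψ (s * h) := by
        refine finsum_mem_congr rfl fun t ht => ?_
        have h4 : t * s * t⁻¹ = s := by
          rw [hc t ht]
          group
        rw [h4, hc h hh]
      rw [h3, finsum_mem_eq_finite_toFinset_sum _ (Set.toFinite (H : Set G)), Finset.sum_const,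
        nsmul_eq_mul]
      congr 2
      rw [← Set.ncard_eq_toFinset_card (H : Set G) (Set.toFinite (H : Set G))]
      rfl
    rw [h2] at h1
    have hH : (Nat.card H : ℂ) ≠ 0 := by exact_mod_cast Nat.card_pos.ne'
    apply mul_left_cancel₀ hH
    linear_combination h1
  · have h1 : s * h ∉ H := by
      intro h2
      apply hh
      have h3 := H.mul_mem (H.inv_mem hs) h2
      simpa using h3
    rw [IrrOn_zero hψ h1, IrrOn_zero hψ hh]
    ring

theorem QCC {G : Type} [Group G] [Finite G] {H S : Subgroup G} (hSH : S ≤ H)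
    (hc : ∀ s ∈ S, ∀ h ∈ H, h * s = s * h) {ψ : G → ℂ} (hψ : ψ ∈ IrrOn H) :
    ∃ l : S →* ℂˣ, ∀ (s : S) (h : G), ψ (s * h) = lv l s * ψ h := by
  have hne := IrrOn_ne hψ
  have hm : ∀ (s : S) (h : G), ψ (s * h) = ψ s / ψ 1 * ψ h := by
    intro s h
    have h1 := QCC_mul (hSH s.2) (hc s.1 s.2) hψ h
    field_simp
    linear_combination h1
  have hmul : ∀ s t : S, ψ ((s * t : S) : G) / ψ 1 = ψ s / ψ 1 * (ψ t / ψ 1) := by
    intro s t
    rw [Subgroup.coe_mul, hm]
    ring
  have h0 : ∀ s : S, ψ s / ψ 1 ≠ 0 := by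
    intro s h
    have h1 := hmul s s⁻¹
    rw [h, zero_mul, mul_inv_cancel, Subgroup.coe_one, div_self hne] at h1
    exact one_ne_zero h1
  refine ⟨{ toFun := fun s => Units.mk0 (ψ s / ψ 1) (h0 s), map_one' := ?_, map_mul' := ?_ }, fun s h => hm s h⟩
  · ext
    change ψ ((1 : S) : G) / ψ 1 = 1
    rw [Subgroup.coe_one, div_self hne]
  · intro s t
    ext
    exact hmul s t

end Pool.Agent.FI
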