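import Mathlib
import Pool.Agent.helper59.FI.Base
import Pool.Agent.helper12.FI.DefsQ

/-!
# Project fi (MP_baa4d7_al): the group of automorphisms of `D`
-/

set_option autoImplicit false

namespace Pool.Agent.FI

open Pool.Agent.helper58.DC Pool.Agent.DI Pool.Agent.GR Pool.Agent.OB

theorem QI0 {G : Type} [Group G] (D T : Subgroup G) (hT : T ≤ nz D) :
    ∃ I : Subgroup (MulAut D), Nat.card I = (cz D).relIndex T ∧
      (∀ t ∈ I, ∃ s ∈ T, ∀ u : D, ((t u : D) : G) = s * u * s⁻¹) ∧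
      ∀ s ∈ T, ∃ t ∈ I, ∀ u : D, ((t u : D) : G) = s * u * s⁻¹ := by
  refine ⟨(T.subgroupOf (nz D)).map D.normalizerMonoidHom, ?_, ?_, ?_⟩
  · rw [← Subgroup.relIndex_ker, Subgroup.normalizerMonoidHom_ker]
    rw [Subgroup.relIndex_subgroupOf hT]
  · rintro t ⟨s, hs, rfl⟩
    exact ⟨s.1, hs, fun u => rfl⟩
  · intro s hs
    exact ⟨_, ⟨⟨s, hT hs⟩, hs, rfl⟩, fun u => rfl⟩

end Pool.Agent.FI
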