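import Mathlib
import Pool.Agent.helper12.FI.DefsQ

/-!
# Project fi (MP_baa4d7_al): the arithmetic of the final step
-/

set_option autoImplicit false

namespace Pool.Agent.FI

open Pool.Agent.helper58.DC Pool.Agent.DI Pool.Agent.GR Pool.Agent.OB

theorem PF_core (iI l n K : ℕ) (E : ℕ) (f : ℤ → ℤ) (k : ℤ → ℕ) (d0 : ℤ) (h1 : 1 ≤ iI)
    (hfk : ∀ d, (iI : ℤ) * f d = iI * k d - if d = d0 then ((n : ℤ) - 1 + iI ^ 2) else 0)
    (hfin : (Function.support k).Finite) (hK : ∑ᶠ d, k d = K) (hn : 1 ≤ n)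
    (hl : iI * K = iI * l + (n - 1)) (hl1 : 1 ≤ l) (hl2 : l ≤ iI)
    (hh : l = iI → ∀ d, d ≠ d0 → k d = 0) (hE : (E : ℤ) ∣ ∑ᶠ d, f d) (hEI : iI < E) : ∀ d, f d = 0 := by
  classical
  have hi : (iI : ℤ) ≠ 0 := by exact_mod_cast (by omega : iI ≠ 0)
  have hf0 : ∀ d, d ≠ d0 → f d = k d := by
    intro d hd
    have h := hfk d
    rw [if_neg hd, sub_zero] at h
    exact mul_left_cancel₀ hi h
  have hfd : (iI : ℤ) * f d0 = iI * k d0 - (n - 1 + iI ^ 2) := by
    rw [hfk d0, if_pos rfl]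
  -- the sums
  set T : Finset ℤ := insert d0 hfin.toFinset with hT
  have hk : ∑ d ∈ T, k d = K := by
    rw [← hK]
    symm
    apply finsum_eq_sum_of_support_subset
    intro d hd
    simp only [hT, Finset.coe_insert, Set.mem_insert_iff]
    right
    exact hfin.mem_toFinset.2 hd
  have hfs : ∑ᶠ d, f d = ∑ d ∈ T, f d := by
    apply finsum_eq_sum_of_support_subset
    intro d hd
    by_cases h : d = d0
    · simp [hT, h]
    · simp only [hT, Finset.coe_insert, Set.mem_insert_iff]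
      right
      refine hfin.mem_toFinset.2 ?_
      rw [Function.mem_support] at hd ⊢
      intro h0
      rw [hf0 d h, h0] at hd
      exact hd rfl
  have hsum : (iI : ℤ) * ∑ d ∈ T, f d = iI * K - (n - 1 + iI ^ 2) := by
    rw [Finset.mul_sum, Finset.sum_congr rfl (fun d _ => hfk d), Finset.sum_sub_distrib, ← Finset.mul_sum,
      Finset.sum_ite_eq', if_pos (by simp [hT]), ← hk]
    push_cast
    rfl
  have hl' : (iI : ℤ) * K = iI * l + (n - 1) := by
    have h2 : ((iI * K : ℕ) : ℤ) = ((iI * l + (n - 1) : ℕ) : ℤ) := by rw [hl]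
    push_cast at h2
    rw [Nat.cast_sub hn] at h2
    simpa using h2
  have hS : ∑ d ∈ T, f d = l - iI := by
    apply mul_left_cancel₀ hi
    rw [hsum, hl']
    ring
  rw [hfs, hS] at hE
  have hli : (l : ℤ) - iI = 0 := by
    obtain ⟨c, hc⟩ := hE
    by_contra hne
    have hc0 : c ≠ 0 := by
      rintro rfl
      exact hne (by rw [hc]; ring)
    have h3 : (l : ℤ) - iI ≤ 0 := by
      have : (l : ℤ) ≤ iI := by exact_mod_cast hl2
      linarith
    have h4 : -(iI : ℤ) < l - iI := by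
      have : (1 : ℤ) ≤ l := by exact_mod_cast hl1
      linarith
    have h5 : (iI : ℤ) < E := by exact_mod_cast hEI
    have h6 : c ≤ -1 := by
      by_contra hcc
      push Not at hcc
      have h7 : 1 ≤ c := by omega
      have h8 : (E : ℤ) * c ≥ E * 1 := by
        apply mul_le_mul_of_nonneg_left h7
        positivity
      linarith
    have h9 : (E : ℤ) * c ≤ E * (-1) := by
      apply mul_le_mul_of_nonneg_left h6
      positivity
    linarith
  have hlE : l = iI := by
    have : (l : ℤ) = iI := by linarith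
    exact_mod_cast this
  have hk0 := hh hlE
  intro d
  by_cases hd : d = d0
  · have h10 : ∑ d ∈ T, f d = f d0 := by
      refine Finset.sum_eq_single d0 (fun e _ he => ?_) (fun h => absurd (by simp [hT]) h)
      rw [hf0 e he, hk0 e he]
      rfl
    rw [hd, ← h10, hS, hli]
  · rw [hf0 d hd, hk0 d hd]
    rfl

theorem PF_defect_unique {G : Type} [Group G] (p : ℕ) (H : Subgroup G) (ψ : G → ℂ) (d d' : ℤ)
    (h : Defect p H ψ d) (h' : Defect p H ψ d') : d = d' := by
  obtain ⟨n, hn, hd⟩ := h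
  obtain ⟨m, hm, hd'⟩ := h'
  have : n = m := by
    have h1 : (n : ℂ) = m := by rw [← hn, ← hm]
    exact_mod_cast h1
  rw [hd, hd', this]

theorem PF_count {G : Type} [Group G] [Finite G] (p : ℕ) (H : Subgroup G) (S : Set (G → ℂ)) (hS : S.Finite)
    (hex : ∀ ψ ∈ S, ∃ d, Defect p H ψ d) :
    (Function.support fun d : ℤ => Nat.card {ψ : G → ℂ // ψ ∈ S ∧ Defect p H ψ d}).Finite ∧
    ∑ᶠ d : ℤ, Nat.card {ψ : G → ℂ // ψ ∈ S ∧ Defect p H ψ d} = S.ncard := by
  classical
  choose! δ hδ using hex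
  have hδ' : ∀ ψ ∈ S, ∀ d, Defect p H ψ d ↔ δ ψ = d := by
    intro ψ hψ d
    constructor
    · intro h
      exact PF_defect_unique p H ψ _ _ (hδ ψ hψ) h
    · rintro rfl
      exact hδ ψ hψ
  have hc : ∀ d : ℤ, Nat.card {ψ : G → ℂ // ψ ∈ S ∧ Defect p H ψ d} =
      (hS.toFinset.filter fun ψ => δ ψ = d).card := by
    intro d
    rw [← Nat.card_eq_finsetCard]
    apply Nat.card_congr
    refine Equiv.subtypeEquivRight fun ψ => ?_
    rw [Finset.mem_filter, hS.mem_toFinset]
    constructor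
    · rintro ⟨h1, h2⟩
      exact ⟨h1, (hδ' ψ h1 d).1 h2⟩
    · rintro ⟨h1, h2⟩
      exact ⟨h1, (hδ' ψ h1 d).2 h2⟩
  have hsub : (Function.support fun d : ℤ => Nat.card {ψ : G → ℂ // ψ ∈ S ∧ Defect p H ψ d}) ⊆
      (hS.toFinset.image δ : Finset ℤ) := by
    intro d hd
    rw [Function.mem_support, hc d] at hd
    obtain ⟨ψ, hψ⟩ := Finset.card_pos.1 (Nat.pos_of_ne_zero hd)
    rw [Finset.mem_filter] at hψ
    rw [Finset.coe_image]
    exact ⟨ψ, hψ.1, hψ.2⟩
  refine ⟨(Finset.finite_toSet _).subset hsub, ?_⟩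
  rw [finsum_eq_sum_of_support_subset _ hsub, Set.ncard_eq_toFinset_card _ hS,
    Finset.card_eq_sum_card_image δ]
  exact Finset.sum_congr rfl fun d _ => hc d

end Pool.Agent.FI
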