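import Mathlib
import Pool.Agent.helper12.FI.SpecQ
import Pool.Agent.helper12.FI.Tr
import Pool.Agent.helper12.FI.PureF
import Pool.Agent.helper12.TY.FinW

/-!
# Project fi (MP_baa4d7_al): the final theorem
-/

set_option autoImplicit false

namespace Pool.Agent.FI

open Pool.Agent.helper58.DC Pool.Agent.DI Pool.Agent.GR Pool.Agent.OB Pool.Agent.DR

/-- The congruence for `E = G`. -/
theorem Fin_div (p : ℕ) (hpr : p.Prime) (M : Ideal (integralClosure ℤ ℂ)) (hM : M.IsMaximal)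
    (hp : (p : integralClosure ℤ ℂ) ∈ M) (G : Type) [Group G] [Finite G]
    (hG : IsOp p (⊤ : Subgroup G) ⊥) (χ : G → ℂ) (hχ : χ ∈ Irr G) (D : Subgroup G)
    (hD : Pool.Agent.MAP.DefectGroup p M χ D) (c : ℕ) (hz : Pool.Agent.MAPW.CentreOut p c D) :
    (p : ℤ) ^ c ∣ ∑ᶠ d : ℤ, altSum (trivE G) p M χ d ⊤ := by
  have hsub : ∀ U V : Subgroup Unit, U = V := by
    intro U V
    ext x
    have hx : x = 1 := rfl
    rw [hx]
    exact ⟨fun _ => V.one_mem, fun _ => U.one_mem⟩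
  have hW : Pool.Agent.MAPW.Adm (trivE G) p M χ ⊤ ⊤ 1 := by
    refine ⟨le_of_eq (hsub _ _), le_top, fun w _ y _ => Subgroup.mem_top _, ⟨0, ?_⟩, Subgroup.mem_top _, ?_, ?_⟩
    · rw [hsub (⊤ ⊓ Pool.Agent.BQ.AB (trivE G) M χ) ⊤, Subgroup.relIndex_self, pow_zero]
    · exact le_of_eq (hsub _ _)
    · rw [orderOf_one]
      exact hpr.one_lt.ne' ∘ Nat.dvd_one.1
  have h := (Pool.Agent.TY.FinW_main p hpr M hM hp G hG χ hχ D hD c hz G Unit (trivE G) ⊤ ⊤ 1 hW ⊤ le_top).1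
    (hsub _ _)
  have hJ : Pool.Agent.MAPW.J2 (orderOf (1 : Unit)) = 1 := by
    rw [orderOf_one]
    unfold Pool.Agent.MAPW.J2
    simp
  rw [hJ, Nat.cast_one, one_mul] at h
  have hV : ∀ d : ℤ, (∑ᶠ V : {V : Subgroup Unit // V ⊓ ⊤ = ⊤}, altSum (trivE G) p M χ d V.1) =
      altSum (trivE G) p M χ d ⊤ := by
    intro d
    have : Unique {V : Subgroup Unit // V ⊓ ⊤ = ⊤} :=
      { default := ⟨⊤, hsub _ _⟩
        uniq := fun V => Subtype.ext (hsub _ _) }
    rw [finsum_unique]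
    exact congrArg _ (hsub _ _)
  rw [finsum_congr hV] at h
  exact h

theorem Fin_main (hLO : LO0_stmt) (hGO : QGO_stmt) (hGG : QGG_stmt) (hFF : FFF_stmt) (p : ℕ)
    (hpr : p.Prime) (hodd : p ≠ 2) (M : Ideal (integralClosure ℤ ℂ)) (hM : M.IsMaximal)
    (hp : (p : integralClosure ℤ ℂ) ∈ M) (G : Type) [Group G] [Finite G]
    (hG : IsOp p (⊤ : Subgroup G) ⊥) (χ : G → ℂ) (hχ : χ ∈ Irr G) (D : Subgroup G) (θ : G → ℂ)
    (h : Pool.Agent.FIW.FreeInertial p M χ D θ) (d : ℤ) : altSum (trivE G) p M χ d ⊤ = 0 := by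
  classical
  have hS : Setup p M := ⟨hpr, hM, hp⟩
  have : Fact p.Prime := ⟨hpr⟩
  obtain ⟨x, hx⟩ := Fin_defAt hS hχ h.defect
  have hpg : IsPGroup p D := hx.pgrp
  have hR : Rt p M D x θ χ := ⟨hχ, hx, h.comm, h.char, h.ind⟩
  have hFr : Free M D θ := fun t ht u hu hu1 htu => h.free t ((Tr_inertial M D θ t).2 ht) u hu hu1 htu
  have hAb : ∀ s ∈ TT M D θ, ∀ t ∈ TT M D θ, s * t * s⁻¹ * t⁻¹ ∈ cz D := fun s hs t ht =>
    h.abel s ((Tr_inertial M D θ s).2 hs) t ((Tr_inertial M D θ t).2 ht)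
  have hDcz : D ≤ cz D := by
    intro a ha
    rw [Subgroup.mem_centralizer_iff]
    intro b hb
    exact h.comm b hb a ha
  have hCT : cz D ≤ TT M D θ := by
    intro c hc
    have hc' : c ∈ nz D := by
      rw [Subgroup.mem_normalizer_iff]
      intro y
      rw [Subgroup.mem_centralizer_iff] at hc
      constructor
      · intro hy
        have h1 := hc y hy
        have h2 : c * y * c⁻¹ = y := by
          rw [← h1]
          group
        rw [h2]
        exact hy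
      · intro hy
        have h1 := hc _ hy
        have h2 : c * y * c⁻¹ = y := by
          have h3 : c⁻¹ * (c * y * c⁻¹ * c) * c⁻¹ = c⁻¹ * (c * (c * y * c⁻¹)) * c⁻¹ := by
            rw [h1]
          have h4 : c⁻¹ * (c * y * c⁻¹ * c) * c⁻¹ = y * c⁻¹ := by group
          have h5 : c⁻¹ * (c * (c * y * c⁻¹)) * c⁻¹ = c * y * c⁻¹ * c⁻¹ := by group
          rw [h4, h5] at h3
          exact (mul_right_cancel h3).symm
        rw [h2] at hy
        exact hy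
    refine ⟨hc', ?_⟩
    have h1 : funMap (MulAut.conj c) θ = θ := by
      have hth : θ ∈ IrrOn (cz D) := h.char
      funext y
      have h2 := ((Pool.Agent.DR.AllDI.iB2 G (cz D)).2 θ hth).2.1 y c⁻¹ ((cz D).inv_mem hc)
      unfold funMap
      rw [MulAut.conj_inv_apply]
      simpa using h2
    rw [h1]
    exact SB.refl _ _
  -- the index
  set iI : ℕ := (cz D).relIndex (TT M D θ) with hiI
  have hcard : Nat.card (TT M D θ) = iI * Nat.card (cz D) := by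
    have h2 := Subgroup.relIndex_mul_relIndex (⊥ : Subgroup G) (cz D) (TT M D θ) bot_le hCT
    rw [Subgroup.relIndex_bot_left, Subgroup.relIndex_bot_left] at h2
    rw [hiI, mul_comm]
    exact h2.symm
  obtain ⟨z, hzD, hz⟩ := h.small
  have hin : (Pool.Agent.FIW.inertial M D θ).ncard = Nat.card (TT M D θ) := by
    have h1 : Pool.Agent.FIW.inertial M D θ = (TT M D θ : Set G) := by
      ext g
      exact Tr_inertial M D θ g
    rw [h1]
    rfl
  have hz' : iI * Nat.card (cz D) < orderOf z * Nat.card (cz D) := by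
    rw [← hcard, ← hin]
    exact hz
  have hzz : iI < orderOf z := lt_of_mul_lt_mul_right hz' (Nat.zero_le _)
  have hi1 : 1 ≤ iI := by
    by_contra h0
    have h1 : iI = 0 := by omega
    rw [h1, zero_mul] at hcard
    exact Nat.card_pos.ne' hcard
  obtain ⟨c, hc⟩ : ∃ c : ℕ, orderOf z = p ^ c := by
    obtain ⟨k, hk⟩ := hpg ⟨z, hzD⟩
    have h1 : z ^ p ^ k = 1 := by
      have h2 := congrArg Subtype.val hk
      simpa using h2
    exact ((Nat.dvd_prime_pow hpr).1 (orderOf_dvd_of_pow_eq_one h1)).imp fun _ h => h.2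
  have hc1 : 1 ≤ c := by
    by_contra h0
    have h1 : c = 0 := by omega
    rw [hc, h1, pow_zero] at hzz
    omega
  have hDn : D ≠ ⊥ := by
    rintro rfl
    have h1 : z = 1 := Subgroup.mem_bot.1 hzD
    rw [h1, orderOf_one] at hzz
    omega
  have hcen : Pool.Agent.MAPW.CentreOut p c D := by
    refine ⟨hc1, z, hzD, fun d hd => h.comm z hzD d hd, ?_⟩
    have h1 : ⁅D, D⁆ = ⊥ := by
      rw [Subgroup.commutator_eq_bot_iff_le_centralizer]
      exact hDcz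
    rw [h1, Subgroup.mem_bot]
    intro h2
    have h3 := orderOf_dvd_of_pow_eq_one h2
    rw [hc] at h3
    have h4 := Nat.le_of_dvd (pow_pos hpr.pos _) h3
    have h5 : p ^ (c - 1) < p ^ c := Nat.pow_lt_pow_right hpr.one_lt (by omega)
    omega
  have hdiv := Fin_div p hpr M hM hp G hG χ hχ D h.defect c hcen
  have hL0 := hLO p M hS G D x θ χ hR hFr hDn hAb
  have hL : Loc p M D x θ χ := ⟨hL0, hGO p M hS hodd G D x θ χ hL0⟩
  obtain ⟨a, ha⟩ := IsPGroup.iff_card.1 hpg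
  obtain ⟨l, hl1, hl2, hl3, hl4⟩ := hGG p M hS hodd G D x θ χ hL hG a ha
  have hF := hFF p M hS G D x θ χ hL hG a ha
  have hfinS : (Blk M χ (⊤ : Subgroup G)).Finite := by
    refine ((Pool.Agent.DR.AllDI.iB2 G (⊤ : Subgroup G)).1).subset ?_
    intro ψ hψ
    exact hψ.1
  have hex : ∀ ψ ∈ Blk M χ (⊤ : Subgroup G), ∃ d, Defect p (⊤ : Subgroup G) ψ d := by
    intro ψ hψ
    obtain ⟨⟨n, -, hn, -⟩, -⟩ := (Pool.Agent.DR.AllDI.iB2 G (⊤ : Subgroup G)).2 ψ hψ.1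
    exact ⟨_, n, hn, rfl⟩
  obtain ⟨hk1, hk2⟩ := PF_count p (⊤ : Subgroup G) (Blk M χ ⊤) hfinS hex
  have hBD : ∀ d : ℤ, (BlkD p M χ ⊤ d).ncard =
      Nat.card {ψ : G → ℂ // ψ ∈ Blk M χ (⊤ : Subgroup G) ∧ Defect p (⊤ : Subgroup G) ψ d} := fun d => rfl
  refine PF_core iI l (Nat.card D) (Blk M χ (⊤ : Subgroup G)).ncard (p ^ c)
    (fun d => altSum (trivE G) p M χ d ⊤)
    (fun d => Nat.card {ψ : G → ℂ // ψ ∈ Blk M χ (⊤ : Subgroup G) ∧ Defect p (⊤ : Subgroup G) ψ d}) a hi1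
    (fun d => ?_) hk1 hk2 Nat.card_pos hl3 hl1 hl2 ?_ ?_ (hc ▸ hzz) d
  · rw [← hBD]
    exact hF d
  · intro hli d hd
    have h1 : IsEmpty {ψ : G → ℂ // ψ ∈ Blk M χ (⊤ : Subgroup G) ∧ Defect p (⊤ : Subgroup G) ψ d} := by
      refine ⟨fun ψ => hd ?_⟩
      exact PF_defect_unique p ⊤ ψ.1 _ _ ψ.2.2 (hl4 hli ψ.1 ψ.2.1)
    exact Nat.card_of_isEmpty
  · have h1 : ((p ^ c : ℕ) : ℤ) = (p : ℤ) ^ c := by push_cast; rfl
    rw [h1]
    exact hdiv

end Pool.Agent.FI
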