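import Mathlib
import Pool.Agent.helper12.FI.Fin
import Pool.Agent.helper35.BQ.All

/-!
# Project fi (MP_baa4d7_al): extensions with `E_B = E[B]`
-/

set_option autoImplicit false

namespace Pool.Agent.FI

open Pool.Agent.helper58.DC Pool.Agent.DI Pool.Agent.GR Pool.Agent.OB Pool.Agent.DR

theorem kC_trivE {G : Type} [Group G] (p : ℕ) (M : Ideal (integralClosure ℤ ℂ)) (χ : G → ℂ) (d : ℤ)
    (C : Finset (Subgroup G)) : kC (trivE G) p M χ d ⊤ C =
      Nat.card {ψ : G → ℂ // ψ ∈ IrrOn (nrm C) ∧ Defect p (nrm C) ψ d ∧ Induces M ψ χ} := by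
  unfold kC
  have h : ∀ ψ : G → ℂ, ((trivE G).stab C ψ).map (trivE G).proj = ⊤ := fun ψ => by
    rw [eq_top_iff]
    intro x _
    have hx : x = 1 := rfl
    rw [hx]
    exact Subgroup.one_mem _
  refine Nat.card_congr (Equiv.subtypeEquivRight fun ψ => ?_)
  simp [h]

theorem ExtE (p : ℕ) (hpr : p.Prime) (M : Ideal (integralClosure ℤ ℂ)) (hM : M.IsMaximal)
    (hp : (p : integralClosure ℤ ℂ) ∈ M) (G : Type) [Group G] [Finite G] (χ : G → ℂ) (hχ : χ ∈ Irr G)
    (d : ℤ) (h0 : altSum (trivE G) p M χ d ⊤ = 0) (E A : Type) [Group E] [Group A] [Finite E]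
    (X : Extension G E A) (hX : Pool.Agent.BQ.AB X M χ ≤ Pool.Agent.BQ.AI X M χ) (U : Subgroup A) :
    altSum X p M χ d U = 0 := by
  have : Fact p.Prime := ⟨hpr⟩
  have hZ := Pool.Agent.BQ.All.qZRO G E A X p M hM hp χ hχ d
  by_cases hU : Pool.Agent.BQ.AI X M χ ≤ U ∧ U ≤ Pool.Agent.BQ.AB X M χ
  · rw [← h0]
    unfold altSum
    refine finsum_congr fun c => ?_
    congr 2
    rw [kC_trivE]
    unfold kC
    refine Nat.card_congr (Equiv.subtypeEquivRight fun ψ => ?_)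
    constructor
    · rintro ⟨h1, h2, h3, -⟩
      exact ⟨h1, h2, h3⟩
    · rintro ⟨h1, h2, h3⟩
      refine ⟨h1, h2, h3, ?_⟩
      set V := (X.stab c.out.1 ψ).map X.proj with hV
      have hVV : Pool.Agent.BQ.AI X M χ ≤ V ∧ V ≤ Pool.Agent.BQ.AB X M χ := by
        by_contra hn
        have h4 := (hZ V hn).1 c.out.1 c.out.2
        unfold kC at h4
        have hfin : Finite {ψ : G → ℂ // ψ ∈ IrrOn (nrm c.out.1) ∧ Defect p (nrm c.out.1) ψ d ∧ Induces M ψ χ ∧
            (X.stab c.out.1 ψ).map X.proj = V} := by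
          have h5 : (IrrOn (nrm c.out.1)).Finite := (Pool.Agent.DR.AllDI.iB2 G (nrm c.out.1)).1
          have : Finite (IrrOn (nrm c.out.1)) := h5
          exact Finite.of_injective (fun x => (⟨x.1, x.2.1⟩ : IrrOn (nrm c.out.1)))
            (fun a b hab => Subtype.ext (congrArg (fun t => t.1) hab))
        have h6 : Nonempty {ψ : G → ℂ // ψ ∈ IrrOn (nrm c.out.1) ∧ Defect p (nrm c.out.1) ψ d ∧ Induces M ψ χ ∧
            (X.stab c.out.1 ψ).map X.proj = V} := ⟨⟨ψ, h1, h2, h3, hV.symm⟩⟩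
        have h7 := Nat.card_pos_iff.2 ⟨h6, hfin⟩
        omega
      exact le_antisymm (hVV.2.trans (hX.trans hU.1)) (hU.2.trans (hX.trans hVV.1))
  · exact (hZ U hU).2

end Pool.Agent.FI
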