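import Mathlib
import Pool.Agent.helper12.FI.Fin

/-!
# Project fi (MP_baa4d7_al): the numbers of the characters of `B`
-/

set_option autoImplicit false

namespace Pool.Agent.FI

open Pool.Agent.helper58.DC Pool.Agent.DI Pool.Agent.GR Pool.Agent.OB Pool.Agent.DR

theorem Fin_cnt (hLO : LO0_stmt) (hGO : QGO_stmt) (hGG : QGG_stmt) (hFF : FFF_stmt) (p : ℕ)
    (hpr : p.Prime) (hodd : p ≠ 2) (M : Ideal (integralClosure ℤ ℂ)) (hM : M.IsMaximal)
    (hp : (p : integralClosure ℤ ℂ) ∈ M) (G : Type) [Group G] [Finite G]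
    (hG : IsOp p (⊤ : Subgroup G) ⊥) (χ : G → ℂ) (hχ : χ ∈ Irr G) (D : Subgroup G) (θ : G → ℂ)
    (h : Pool.Agent.FIW.FreeInertial p M χ D θ) (i a : ℕ)
    (hi : (Pool.Agent.FIW.inertial M D θ).ncard = i * Nat.card (Subgroup.centralizer (D : Set G)))
    (ha : Nat.card D = p ^ a) (d : ℤ) :
    i * Nat.card {ψ : G → ℂ // ψ ∈ Irr G ∧ Defect p ⊤ ψ d ∧ Induces M ψ χ} =
      if d = a then i ^ 2 + (p ^ a - 1) else 0 := by
  have hmain := Fin_main hLO hGO hGG hFF p hpr hodd M hM hp G hG χ hχ D θ h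

  classical
  have hS : Setup p M := ⟨hpr, hM, hp⟩
  have : Fact p.Prime := ⟨hpr⟩
  obtain ⟨x, hx⟩ := Fin_defAt hS hχ h.defect
  have hpg : IsPGroup p D := hx.pgrp
  have hR : Rt p M D x θ χ := ⟨hχ, hx, h.comm, h.char, h.ind⟩
  have hFr : Free M D θ := fun t ht u hu hu1 htu => h.free t ((Tr_inertial M D θ t).2 ht) u hu hu1 htu
  have hAb : ∀ s ∈ TT M D θ, ∀ t ∈ TT M D θ, s * t * s⁻¹ * t⁻¹ ∈ cz D := fun s hs t ht =>
    h.abel s ((Tr_inertial M D θ s).2 hs) t ((Tr_inertial M D θ t).2 ht)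
  have hDcz : D ≤ cz D := by
    intro a ha
    rw [Subgroup.mem_centralizer_iff]
    intro b hb
    exact h.comm b hb a ha
  have hCT : cz D ≤ TT M D θ := by
    intro c hc
    have hc' : c ∈ nz D := by
      rw [Subgroup.mem_normalizer_iff]
      intro y
      rw [Subgroup.mem_centralizer_iff] at hc
      constructor
      · intro hy
        have h1 := hc y hy
        have h2 : c * y * c⁻¹ = y := by
          rw [← h1]
          group
        rw [h2]
        exact hy
      · intro hy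
        have h1 := hc _ hy
        have h2 : c * y * c⁻¹ = y := by
          have h3 : c⁻¹ * (c * y * c⁻¹ * c) * c⁻¹ = c⁻¹ * (c * (c * y * c⁻¹)) * c⁻¹ := by
            rw [h1]
          have h4 : c⁻¹ * (c * y * c⁻¹ * c) * c⁻¹ = y * c⁻¹ := by group
          have h5 : c⁻¹ * (c * (c * y * c⁻¹)) * c⁻¹ = c * y * c⁻¹ * c⁻¹ := by group
          rw [h4, h5] at h3
          exact (mul_right_cancel h3).symm
        rw [h2] at hy
        exact hy
    refine ⟨hc', ?_⟩
    have h1 : funMap (MulAut.conj c) θ = θ := by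
      have hth : θ ∈ IrrOn (cz D) := h.char
      funext y
      have h2 := ((Pool.Agent.DR.AllDI.iB2 G (cz D)).2 θ hth).2.1 y c⁻¹ ((cz D).inv_mem hc)
      unfold funMap
      rw [MulAut.conj_inv_apply]
      simpa using h2
    rw [h1]
    exact SB.refl _ _
  -- the index
  set iI : ℕ := (cz D).relIndex (TT M D θ) with hiI
  have hcard : Nat.card (TT M D θ) = iI * Nat.card (cz D) := by
    have h2 := Subgroup.relIndex_mul_relIndex (⊥ : Subgroup G) (cz D) (TT M D θ) bot_le hCT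
    rw [Subgroup.relIndex_bot_left, Subgroup.relIndex_bot_left] at h2
    rw [hiI, mul_comm]
    exact h2.symm
  obtain ⟨z, hzD, hz⟩ := h.small
  have hin : (Pool.Agent.FIW.inertial M D θ).ncard = Nat.card (TT M D θ) := by
    have h1 : Pool.Agent.FIW.inertial M D θ = (TT M D θ : Set G) := by
      ext g
      exact Tr_inertial M D θ g
    rw [h1]
    rfl
  have hz' : iI * Nat.card (cz D) < orderOf z * Nat.card (cz D) := by
    rw [← hcard, ← hin]
    exact hz
  have hzz : iI < orderOf z := lt_of_mul_lt_mul_right hz' (Nat.zero_le _)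
  have hi1 : 1 ≤ iI := by
    by_contra h0
    have h1 : iI = 0 := by omega
    rw [h1, zero_mul] at hcard
    exact Nat.card_pos.ne' hcard
  obtain ⟨c, hc⟩ : ∃ c : ℕ, orderOf z = p ^ c := by
    obtain ⟨k, hk⟩ := hpg ⟨z, hzD⟩
    have h1 : z ^ p ^ k = 1 := by
      have h2 := congrArg Subtype.val hk
      simpa using h2
    exact ((Nat.dvd_prime_pow hpr).1 (orderOf_dvd_of_pow_eq_one h1)).imp fun _ h => h.2
  have hc1 : 1 ≤ c := by
    by_contra h0
    have h1 : c = 0 := by omega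
    rw [hc, h1, pow_zero] at hzz
    omega
  have hDn : D ≠ ⊥ := by
    rintro rfl
    have h1 : z = 1 := Subgroup.mem_bot.1 hzD
    rw [h1, orderOf_one] at hzz
    omega
  have hcen : Pool.Agent.MAPW.CentreOut p c D := by
    refine ⟨hc1, z, hzD, fun d hd => h.comm z hzD d hd, ?_⟩
    have h1 : ⁅D, D⁆ = ⊥ := by
      rw [Subgroup.commutator_eq_bot_iff_le_centralizer]
      exact hDcz
    rw [h1, Subgroup.mem_bot]
    intro h2
    have h3 := orderOf_dvd_of_pow_eq_one h2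
    rw [hc] at h3
    have h4 := Nat.le_of_dvd (pow_pos hpr.pos _) h3
    have h5 : p ^ (c - 1) < p ^ c := Nat.pow_lt_pow_right hpr.one_lt (by omega)
    omega
  have hdiv := Fin_div p hpr M hM hp G hG χ hχ D h.defect c hcen
  have hL0 := hLO p M hS G D x θ χ hR hFr hDn hAb
  have hL : Loc p M D x θ χ := ⟨hL0, hGO p M hS hodd G D x θ χ hL0⟩
  obtain ⟨a', ha'⟩ := IsPGroup.iff_card.1 hpg
  obtain ⟨l, hl1, hl2, hl3, hl4⟩ := hGG p M hS hodd G D x θ χ hL hG a' ha'
  have hF := hFF p M hS G D x θ χ hL hG a' ha'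
  have hia : a = a' := by
    apply Nat.pow_right_injective hpr.two_le
    change p ^ a = p ^ a'
    rw [← ha, ha']
  subst hia
  have hii : i = iI := by
    rw [hin, hcard] at hi
    exact (Nat.eq_of_mul_eq_mul_right Nat.card_pos hi).symm
  have hk : Nat.card {ψ : G → ℂ // ψ ∈ Irr G ∧ Defect p ⊤ ψ d ∧ Induces M ψ χ} = (BlkD p M χ ⊤ d).ncard := by
    have h1 : (BlkD p M χ ⊤ d).ncard =
      Nat.card {ψ : G → ℂ // ψ ∈ Blk M χ (⊤ : Subgroup G) ∧ Defect p (⊤ : Subgroup G) ψ d} := rfl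
    rw [h1]
    refine Nat.card_congr (Equiv.subtypeEquivRight fun ψ => ?_)
    have h2 := Pool.Agent.GR.All.dTI G ψ
    constructor
    · rintro ⟨h3, h4, h5⟩
      exact ⟨⟨h2.2 h3, h5⟩, h4⟩
    · rintro ⟨⟨h3, h5⟩, h4⟩
      exact ⟨h2.1 h3, h4, h5⟩
  rw [hk, hii]
  have hFd := hF d
  rw [hmain d, mul_zero] at hFd
  have hc1' : 1 ≤ Nat.card D := Nat.card_pos
  rw [ha] at hFd hc1'
  split_ifs with hda
  · rw [if_pos hda] at hFd
    have h5 : ((iI * (BlkD p M χ ⊤ d).ncard : ℕ) : ℤ) = ((iI ^ 2 + (p ^ a - 1) : ℕ) : ℤ) := by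
      push_cast [Nat.cast_sub hc1']
      push_cast at hFd
      linarith
    exact_mod_cast h5
  · rw [if_neg hda] at hFd
    have h5 : ((iI * (BlkD p M χ ⊤ d).ncard : ℕ) : ℤ) = ((0 : ℕ) : ℤ) := by
      push_cast
      linarith
    exact_mod_cast h5

end Pool.Agent.FI
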