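import Mathlib
import Pool.Agent.helper12.FI.QGL

/-!
# Project fi (MP_baa4d7_al): the global step
-/

set_option autoImplicit false

namespace Pool.Agent.FI

open Pool.Agent.helper58.DC Pool.Agent.DI Pool.Agent.GR Pool.Agent.OB Pool.Agent.DR

theorem QGG_cz_bot (G : Type) [Group G] : cz (⊥ : Subgroup G) = ⊤ := by
  rw [eq_top_iff]
  intro x _
  rw [Subgroup.mem_centralizer_iff]
  intro y hy
  have h1 : y = 1 := Subgroup.mem_bot.1 hy
  rw [h1, one_mul, mul_one]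

theorem QGG_Zc {G : Type} [Group G] {p : ℕ} {D : Subgroup G} (hD : IsPGroup p D)
    (hG : IsOp p (⊤ : Subgroup G) ⊥) : Zc D (⊤ : Subgroup G) = ⊥ := by
  rw [← le_bot_iff]
  refine hG.2 ⟨le_top, hD.to_le inf_le_left, ?_⟩
  intro g _
  rw [Subgroup.mem_normalizer_iff]
  intro u
  constructor
  · intro hu
    have h1 := (Zc_mem.1 hu).2 g (Subgroup.mem_top g)
    have h2 : g * u * g⁻¹ = u := by
      rw [h1]
      group
    rw [h2]
    exact hu
  · intro hu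
    have h1 := (Zc_mem.1 hu).2 g (Subgroup.mem_top g)
    have h2 : g * u * g⁻¹ = u := by
      have h3 : g * (g * u * g⁻¹) = g * u := by
        rw [h1]
        group
      exact mul_left_cancel h3
    rw [h2] at hu
    exact hu

theorem QGG (hQLA : QLA_stmt) (hLAF : LAF_stmt) (hLCO : LCO_stmt) (hQMF : QMF_stmt) (hQEM : QEM_stmt)
    (hFBC : FBC_stmt) (hTPR : TPR_stmt) : QGG_stmt := by
  classical
  intro p M hS hp G _ _ D x θ χ h hG a ha
  have hpr := hS.pr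
  have : Fact p.Prime := ⟨hpr⟩
  have hL0 := h.lo
  have hR := hL0.rt
  have hcz := QGG_cz_bot G
  have hZc : Zc D (cz (⊥ : Subgroup G)) = ⊥ := by
    rw [hcz]
    exact QGG_Zc hR.dfa.pgrp hG
  have hCen : ∀ u ∈ D, Cen (cz (⊥ : Subgroup G)) u → u = 1 := by
    intro u hu hc
    have h1 : u ∈ Zc D (cz (⊥ : Subgroup G)) := Zc_mem.2 ⟨hu, hc⟩
    rw [hZc] at h1
    exact Subgroup.mem_bot.1 h1
  obtain ⟨⟨u₀, hu₀⟩, hu₀1⟩ := (Subgroup.ne_bot_iff_exists_ne_one).1 hL0.nb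
  have hu₀' : u₀ ≠ 1 := fun h2 => hu₀1 (Subtype.ext h2)
  have hex : ∃ u ∈ D, ¬ Cen (cz (⊥ : Subgroup G)) u := ⟨u₀, hu₀, fun hc => hu₀' (hCen u₀ hu₀ hc)⟩
  have hGU : GU p M D (cz (⊥ : Subgroup G)) θ := by
    intro u hu hc
    rw [← cz_sup_zpowers]
    refine h.good _ (sup_le bot_le (Subgroup.zpowers_le.2 hu)) ?_
    intro h1
    apply hc
    have h2 : u ∈ (⊥ : Subgroup G) ⊔ Subgroup.zpowers u := Subgroup.mem_sup_right (Subgroup.mem_zpowers u)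
    rw [h1] at h2
    have h3 : u = 1 := Subgroup.mem_bot.1 h2
    intro l _
    rw [h3, one_mul, mul_one]
  obtain ⟨I, β, n, hI, hL, hh⟩ := hQLA p M hS hp G D x θ χ hL0 ⊥ bot_le hex hGU
  have hi : iL M D (cz (⊥ : Subgroup G)) θ = (cz D).relIndex (TT M D θ) := by
    unfold iL
    rw [hcz, inf_top_eq]
  set i : ℕ := (cz D).relIndex (TT M D θ) with hidef
  rw [hi] at hI
  have hi0 : i ≠ 0 := by
    rw [← hI]
    exact Nat.card_pos.ne'
  have hBl : Blk M χ (⊤ : Subgroup G) = Bl M (cz (⊥ : Subgroup G)) θ := by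
    obtain ⟨-, h2, -, -, -⟩ := hTPR p M hS G
    have h3 : SB M (⊤ : Subgroup G) θ χ := (h2 θ χ).1 hR.ind
    rw [hcz]
    ext ψ
    constructor
    · rintro ⟨h4, h5⟩
      exact ⟨h4, ((h2 ψ χ).1 h5).trans h3.symm⟩
    · rintro ⟨h4, h5⟩
      exact ⟨h4, (h2 ψ χ).2 (h5.trans h3)⟩
  have hfin : (Bl M (cz (⊥ : Subgroup G)) θ).Finite := (IrrOn_fin _).subset fun ψ hψ => hψ.1
  have : Finite ↥(Bl M (cz (⊥ : Subgroup G)) θ) := hfin.to_subtype
  have : Fintype ↥(Bl M (cz (⊥ : Subgroup G)) θ) := Fintype.ofFinite _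
  have hA := hLAF p M D (Bl M (cz (⊥ : Subgroup G)) θ) _ _ _ _ _ hL
  obtain ⟨hid, hher, hne⟩ := hQEM p M hS G (cz (⊥ : Subgroup G)) (Bl M (cz (⊥ : Subgroup G)) θ)
    (hFBC p M hS G (cz (⊥ : Subgroup G)) θ 1).1
  have hnon : (Bl M (cz (⊥ : Subgroup G)) θ).Nonempty := by
    rw [← hBl]
    obtain ⟨h1, h2, -, -, -⟩ := hTPR p M hS G
    refine ⟨χ, ?_, (h2 χ χ).2 (SB.refl _ _)⟩
    rw [h1]
    exact hR.chi
  obtain ⟨l, hl1, hl⟩ := hne hnon
  have hZs : (Zc D (cz (⊥ : Subgroup G))).subgroupOf D = ⊥ := by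
    rw [hZc]
    exact Subgroup.bot_subgroupOf D
  have hcZ : Nat.card ((Zc D (cz (⊥ : Subgroup G))).subgroupOf D) = 1 := by
    rw [hZs]
    exact Subgroup.card_bot
  have hcZ' : Nat.card (Zc D (cz (⊥ : Subgroup G))) = 1 := by
    rw [hZc]
    exact Subgroup.card_bot
  have h0 := QK0 ((Zc D (cz (⊥ : Subgroup G))).subgroupOf D)
    (fun (ψ : Bl M (cz (⊥ : Subgroup G)) θ) u => dd M (Cz (cz (⊥ : Subgroup G)) u) θ ψ u)
    (fun ψ => EE p (cz (⊥ : Subgroup G)) ψ ψ) l i hi0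
    (by rw [finsum_set_coe_eq_finsum_mem (f := fun ψ : G → ℂ => EE p (cz (⊥ : Subgroup G)) ψ ψ)]; exact hl)
    (fun ψ => by
      have h1 := hQMF p M hS G D x θ χ hL0 ⊥ bot_le hGU ψ ψ.2
      rw [hi, hcZ'] at h1
      rw [hcZ]
      exact h1)
    hL.h4b
  rw [hcZ, mul_one] at h0
  have hXc : Nat.card (Bl M (cz (⊥ : Subgroup G)) θ) = (Blk M χ (⊤ : Subgroup G)).ncard := by
    rw [hBl, Nat.card_coe_set_eq]
  rw [hXc] at h0
  have hDpos : 1 ≤ Nat.card D := Nat.card_pos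
  have hc1 := hA.c1 1 (fun t _ u => by rw [lv_hone, lv_hone])
  have huniv : {ψ : Bl M (cz (⊥ : Subgroup G)) θ | ∀ z ∈ (Zc D (cz (⊥ : Subgroup G))).subgroupOf D,
      ∀ u, β ψ (z * u) = lv (1 : D →* ℂˣ) z * β ψ u} = Set.univ := by
    refine Set.eq_univ_of_forall fun ψ => ?_
    intro z hz u
    rw [hZs] at hz
    have h1 : z = 1 := Subgroup.mem_bot.1 hz
    rw [h1, one_mul, lv_one, one_mul]
  rw [huniv, Set.ncard_univ, hXc, hI, hZs, Subgroup.index_bot] at hc1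
  have hli : l ≤ i := by
    have h1 : i * l ≤ i * i := by
      have h2 : i ^ 2 = i * i := sq i
      omega
    exact Nat.le_of_mul_le_mul_left h1 (Nat.pos_of_ne_zero hi0)
  refine ⟨l, hl1, hli, by omega, ?_⟩
  intro hleq ψ hψ
  rw [hBl] at hψ
  have hc3 := hA.c3 hZs (by
    rw [hI, hXc]
    have h2 : i ^ 2 = i * i := sq i
    rw [hleq] at h0
    omega)
  let ψ' : Bl M (cz (⊥ : Subgroup G)) θ := ⟨ψ, hψ⟩
  let v₀ : D := ⟨u₀, hu₀⟩
  have hv₀ : v₀ ≠ 1 := hu₀1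
  have hv₀Z : v₀ ∉ (Zc D (cz (⊥ : Subgroup G))).subgroupOf D := by
    rw [hZs]
    exact fun h1 => hv₀ (Subgroup.mem_bot.1 h1)
  have h1 := hc3 ψ' v₀ hv₀
  have hdint : IntAt M (dd M (Cz (cz (⊥ : Subgroup G)) v₀) θ ψ v₀) :=
    IntAt.of_isIntegral hS (hL.h7 ψ' v₀ hv₀Z)
  have h2 : ¬ InM M (β ψ' v₀) := by
    rw [hL.h3a ψ' v₀ hv₀Z]
    intro h3
    have hnI : IntAt M ((n v₀ : ℤ) : ℂ) := IntAt.of_isIntegral hS (by
      have h9 : IsIntegral ℤ (algebraMap ℤ ℂ (n v₀)) := isIntegral_algebraMap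
      simpa using h9)
    rcases InM.or hS hnI hdint h3 with h4 | h4
    · apply hL.h3b v₀ hv₀Z
      have h5 : InM M ((n v₀ : ℤ) : ℂ) := h4
      exact (InM.intCast hS (n v₀)).1 h5
    · exact h1 h4
  have hcom : ∀ c d : D, c * d = d * c := fun c d => Subtype.ext (hR.com c c.2 d d.2)
  let _ : CommGroup D := { (inferInstance : Group D) with mul_comm := hcom }
  have : Fintype D := Fintype.ofFinite _
  have h3 := (hLCO p M D (β ψ') hS hR.dfa.pgrp (hL.h1 ψ')).2.2 v₀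
  obtain ⟨N, k, hN, hN0, hk, hv⟩ := hh ψ'
  have h4 : ¬ p ∣ N := by
    intro h5
    apply h2
    have h6 : InM M (β ψ' 1) := by
      rw [hN]
      exact (InM.natCast hS N).2 h5
    have h7 := InM.add hS h3 h6
    rw [sub_add_cancel] at h7
    exact h7
  refine ⟨k, hk, ?_⟩
  rw [padicValNat.eq_zero_of_not_dvd h4, ha, padicValNat.prime_pow, hcz] at hv
  have h5 : ((padicValNat p (Nat.card (⊤ : Subgroup G)) : ℕ) : ℤ) = padicValNat p k + a := by
    exact_mod_cast (by omega : padicValNat p (Nat.card (⊤ : Subgroup G)) = padicValNat p k + a)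
  rw [h5]
  ring

end Pool.Agent.FI
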