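import Mathlib
import Pool.Agent.helper12.FI.Fin
import Pool.Agent.helper12.FI.Fin2
import Pool.Agent.helper12.FI.ExtE
import Pool.Agent.helper12.FI.QGL
import Pool.Agent.helper12.FI.QGO
import Pool.Agent.helper12.FI.QGG
import Pool.Agent.helper12.FI.QMF
import Pool.Agent.helper22.FI.AllA
import Pool.Agent.helper59.FI.AllB
import Pool.Agent.helper83.FI.AllR
import Pool.Agent.helper58.FI.AllC
import Pool.Agent.helper58.FI.LO0
import Pool.Agent.helper40.FI.AllLA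
import Pool.Agent.helper40.FIB.QLA
import Pool.Agent.helper1.FI.AllQ2
import Pool.Agent.helper52.FIB.QRP
import Pool.Agent.helper52.FIB.QMS
import Pool.Agent.helper78.FIB.QRS
import Pool.Agent.helper85.FIB.QES
import Pool.Agent.helper20.FIB.QSM
import Pool.Agent.helper20.FIB.QMX
import Pool.Agent.helper8.FIB.QCE
import Pool.Agent.helper74.FIB.QDC
import Pool.Agent.helper24.FIB.QFU
import Pool.Agent.helper2.FIB.QCN
import Pool.Agent.helper66.FIB.QWT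
import Pool.Agent.helper45.FIB.QCJ
import Pool.Agent.helper50.FIB.QMG
import Pool.Agent.helper15.FIB.QMY
import Pool.Agent.helper15.FIB.QVN
import Pool.Agent.helper93.FIB.QIN
import Pool.Agent.helper6.FIB.QIT
import Pool.Agent.helper49.FIB.QEI
import Pool.Agent.helper27.FIB.QIR
import Pool.Agent.helper34.FIB.QDI
import Pool.Agent.helper88.FIB.QEV

/-!
# Project fi (MP_baa4d7_al): assembly
-/

set_option autoImplicit false

namespace Pool.Agent.FI.AllQ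

open Pool.Agent Pool.Agent.FI Pool.Agent.GR Pool.Agent.helper58.DC Pool.Agent.DI Pool.Agent.OB

theorem qQCE : QCE_stmt := QCE GR.All.dSCH AllR.rCHC GR.All.dB2 GR.All.dC3
theorem qQRS : QRS_stmt := QRS Pool.Agent.DR.AllDI.iB3 Pool.Agent.DR.AllDI.iB13 GR.All.dB2
theorem qQES : QES_stmt := QES qQRS AllQ2.dQEK GR.All.dB2
theorem qQSM : QSM_stmt := QSM AllR.rRR1 AllA.dEQY qQES GR.All.dEIN GR.All.dIDM
theorem qQMS : QMS_stmt := QMS qQSM qQCE AllR.rCHC GR.All.dB2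
theorem qQCJ : QCJ_stmt := QCJ
theorem qQDC : QDC_stmt := QDC AllC.cFEQ qQCJ GR.All.dB2
theorem qQFU : QFU_stmt := QFU AllC.cFEQ
theorem qQCN : QCN_stmt := QCN AllA.dEXB AllC.cFSI AllC.cFEQ
theorem qQWT : QWT_stmt := QWT qQCN qQFU AllC.cFEQ AllC.cFRA
theorem qQIT : QIT_stmt := QIT GR.All.dBR0 GR.All.dB2
theorem qQEI : QEI_stmt := QEI qQIT AllR.rCHC GR.All.dB2
theorem qQIR : QIR_stmt := QIR qQEI GR.All.dB2
theorem qQMG : QMG_stmt := QMG AllC.cFEQ qQCJ qQEI AllC.cHTN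
theorem qQMY : QMY_stmt := QMY qQMS qQWT qQMG qQDC AllC.cFEQ GR.All.dB2
theorem qQMX : QMX_stmt := QMX qQMY GR.All.dPPT qQCE AllR.rCHC GR.All.dB2
theorem qQIN : QIN_stmt := QIN GR.All.dB2 GR.All.dC3
theorem qQVN : QVN_stmt := QVN qQMX qQIN GR.All.dB2
theorem qQDI : QDI_stmt := QDI qQRS qQCE GR.All.dB2
theorem qQEM : QEM_stmt := QEM qQEI qQIR
theorem qQMF : QMF_stmt := QMF qQMX

theorem qQLA (hQEV : QEV_stmt) : QLA_stmt :=
  QLA aLA_LCG aLA_LCO (AllQ2.eQEU hQEV) AllQ2.dQCG qQVN (AllQ2.eQHT hQEV)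
    (AllQ2.eQNU hQEV) AllQ2.dQID AllC.cDOR qQDI AllR.rEVM GR.All.dIDM AllR.rRR2

theorem qQGL (hQEV : QEV_stmt) : QGL_stmt :=
  QGL (qQLA hQEV) aLA_LAF qQMF qQEM AllC.cFBC AllA.dSTC AllA.dEXB

theorem qQGO (hQEV : QEV_stmt) : QGO_stmt := QGO AllA.dGDC AllA.dDFL AllA.dEXB (qQGL hQEV)

theorem qQGG (hQEV : QEV_stmt) : QGG_stmt :=
  QGG (qQLA hQEV) aLA_LAF aLA_LCO qQMF qQEM AllC.cFBC AllA.dTPR

theorem qLO0 : LO0_stmt := LO0 AllB.dCON AllB.dCNJ AllA.dDFL AllA.dBET AllA.dEQY AllC.cFCY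

theorem qQEV : QEV_stmt := QEV QRP

/-- Theorem FI. -/
theorem fi_main (p : ℕ) (hpr : p.Prime) (hodd : p ≠ 2) (M : Ideal (integralClosure ℤ ℂ)) (hM : M.IsMaximal)
    (hp : (p : integralClosure ℤ ℂ) ∈ M) (G : Type) [Group G] [Finite G]
    (hG : IsOp p (⊤ : Subgroup G) ⊥) (χ : G → ℂ) (hχ : χ ∈ Irr G) (D : Subgroup G) (θ : G → ℂ)
    (h : Pool.Agent.FIW.FreeInertial p M χ D θ) (d : ℤ) : altSum (trivE G) p M χ d ⊤ = 0 :=
  Fin_main qLO0 (qQGO qQEV) (qQGG qQEV) AllC.cFFF p hpr hodd M hM hp G hG χ hχ D θ h d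

theorem fi_ext (p : ℕ) (hpr : p.Prime) (hodd : p ≠ 2) (M : Ideal (integralClosure ℤ ℂ)) (hM : M.IsMaximal)
    (hp : (p : integralClosure ℤ ℂ) ∈ M) (G : Type) [Group G] [Finite G]
    (hG : IsOp p (⊤ : Subgroup G) ⊥) (χ : G → ℂ) (hχ : χ ∈ Irr G) (D : Subgroup G) (θ : G → ℂ)
    (h : Pool.Agent.FIW.FreeInertial p M χ D θ) (E A : Type) [Group E] [Group A] [Finite E]
    (X : Extension G E A) (hX : Pool.Agent.BQ.AB X M χ ≤ Pool.Agent.BQ.AI X M χ) (d : ℤ) (U : Subgroup A) :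
    altSum X p M χ d U = 0 :=
  ExtE p hpr M hM hp G χ hχ d (fi_main p hpr hodd M hM hp G hG χ hχ D θ h d) E A X hX U

theorem fi_cnt (p : ℕ) (hpr : p.Prime) (hodd : p ≠ 2) (M : Ideal (integralClosure ℤ ℂ)) (hM : M.IsMaximal)
    (hp : (p : integralClosure ℤ ℂ) ∈ M) (G : Type) [Group G] [Finite G]
    (hG : IsOp p (⊤ : Subgroup G) ⊥) (χ : G → ℂ) (hχ : χ ∈ Irr G) (D : Subgroup G) (θ : G → ℂ)
    (h : Pool.Agent.FIW.FreeInertial p M χ D θ) (i a : ℕ)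
    (hi : (Pool.Agent.FIW.inertial M D θ).ncard = i * Nat.card (Subgroup.centralizer (D : Set G)))
    (ha : Nat.card D = p ^ a) (d : ℤ) :
    i * Nat.card {ψ : G → ℂ // ψ ∈ Irr G ∧ Defect p ⊤ ψ d ∧ Induces M ψ χ} =
      if d = a then i ^ 2 + (p ^ a - 1) else 0 :=
  Fin_cnt qLO0 (qQGO qQEV) (qQGG qQEV) AllC.cFFF p hpr hodd M hM hp G hG χ hχ D θ h i a hi ha d

end Pool.Agent.FI.AllQ
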